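import Mathlib

set_option autoImplicit false

/-!
Unimodal maps of the unit interval, kneading sequences, cutting times, kneading maps and
critical omega-limit sets, following the conventions of the problem file.
-/

namespace Pool.Agent.W_MP_23b248_an

open Filter

/-- `f : [0,1] → [0,1]` is unimodal with turning point `c ∈ (0,1)`: continuous, strictly increasing
on `[0,c]`, strictly decreasing on `[c,1]`; with the standing assumptions `c₂ < c < c₁`, `c₂ < c₃`
where `cₙ = fⁿ(c)`. -/
structure IsUnimodal (f : unitInterval → unitInterval) (c : unitInterval) : Prop where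
  cont : Continuous f
  pos : 0 < c
  lt_one : c < 1
  incr : StrictMonoOn f (Set.Icc 0 c)
  decr : StrictAntiOn f (Set.Icc c 1)
  c2_lt_c : f^[2] c < c
  c_lt_c1 : c < f^[1] c
  c2_lt_c3 : f^[2] c < f^[3] c

/-- The omega-limit set of the point `y`: all cluster points of `y, f(y), f²(y), ...`. -/
def omega (f : unitInterval → unitInterval) (y : unitInterval) : Set unitInterval :=
  {z | MapClusterPt z atTop (fun n : ℕ => f^[n] y)}

/-- The turning point is infinitely recurrent: `c ∈ ω(c)` and `c` is not periodic. -/
def IsInfinitelyRecurrent (f : unitInterval → unitInterval) (c : unitInterval) : Prop :=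
  c ∈ omega f c ∧ ∀ n : ℕ, 1 ≤ n → f^[n] c ≠ c

open Classical in
/-- The kneading sequence: `νₙ = 1` if `cₙ > c`, and `νₙ = 0` otherwise (for non-periodic `c`,
and `n ≥ 1`, the second case means `cₙ < c`). -/
noncomputable def kneading (f : unitInterval → unitInterval) (c : unitInterval) (n : ℕ) : ℕ :=
  if c < f^[n] c then 1 else 0

/-- `S` is the sequence of cutting times: `S₀ = 1` and
`S_{k+1} = min {n > S_k : ν_n ≠ ν_{n - S_k}}`. -/
structure IsCuttingTimes (f : unitInterval → unitInterval) (c : unitInterval) (S : ℕ → ℕ) :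
    Prop where
  zero : S 0 = 1
  succ : ∀ k : ℕ, IsLeast {n : ℕ | S k < n ∧ kneading f c n ≠ kneading f c (n - S k)} (S (k + 1))

/-- `Q` is the kneading map for the cutting times `S`: `S_k - S_{k-1} = S_{Q(k)}` for `k ≥ 1`. -/
def IsKneadingMap (S Q : ℕ → ℕ) : Prop :=
  ∀ k : ℕ, 1 ≤ k → S k - S (k - 1) = S (Q k)

/-- The map is longbranched: its kneading map is bounded. -/
def IsLongbranched (f : unitInterval → unitInterval) (c : unitInterval) : Prop :=
  ∃ S Q : ℕ → ℕ, IsCuttingTimes f c S ∧ IsKneadingMap S Q ∧ ∃ B : ℕ, ∀ k : ℕ, 1 ≤ k → Q k ≤ B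

/-- `f : ω(c) → ω(c)` is a minimal homeomorphism: a bijection of `ω(c)` onto itself for which
every forward orbit starting in `ω(c)` is dense in `ω(c)`. -/
def IsMinimalHomeo (f : unitInterval → unitInterval) (c : unitInterval) : Prop :=
  Set.BijOn f (omega f c) (omega f c) ∧
    ∀ y ∈ omega f c, omega f c ⊆ closure (Set.range fun n : ℕ => f^[n] y)

/-- `(a,b)` is a wandering interval: a nondegenerate open interval whose forward images are
pairwise disjoint and no point of which has a finite omega-limit set (so no point of it is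
attracted to a periodic orbit). -/
def IsWanderingInterval (f : unitInterval → unitInterval) (a b : unitInterval) : Prop :=
  a < b ∧
    (∀ m n : ℕ, m ≠ n → Disjoint (f^[m] '' Set.Ioo a b) (f^[n] '' Set.Ioo a b)) ∧
    ∀ x ∈ Set.Ioo a b, (omega f x).Infinite

end Pool.Agent.W_MP_23b248_an
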