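import Mathlib

set_option autoImplicit false

/-!
Combinatorics of kneading sequences: for a bounded kneading map every near-critical time has an
even number of ones before it.
-/

namespace Pool.Agent.W_MP_23b248_an

/-- number of ones among `ν 1, ..., ν n` -/
def P (ν : ℕ → ℕ) (n : ℕ) : ℕ := ∑ i ∈ Finset.range n, ν (i + 1)

lemma P_zero (ν : ℕ → ℕ) : P ν 0 = 0 := by simp [P]

lemma P_succ (ν : ℕ → ℕ) (n : ℕ) : P ν (n + 1) = P ν n + ν (n + 1) := by
  simp [P, Finset.sum_range_succ]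

lemma P_add_eq (ν : ℕ → ℕ) (l n : ℕ) (h : ∀ i, 1 ≤ i → i ≤ n → ν (l + i) = ν i) :
    P ν (l + n) = P ν l + P ν n := by
  induction n with
  | zero => simp [P]
  | succ n ih =>
    have h1 := ih (fun i h1 h2 => h i h1 (by omega))
    have h2 := h (n + 1) (by omega) le_rfl
    rw [← add_assoc, P_succ, P_succ, h1, add_assoc l n 1, h2]
    ring

lemma P_add_ne {ν : ℕ → ℕ} (hν : ∀ n, ν n = 0 ∨ ν n = 1) (l n : ℕ) (hn : 1 ≤ n)
    (h : ∀ i, 1 ≤ i → i < n → ν (l + i) = ν i) (hne : ν (l + n) ≠ ν n) :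
    Odd (P ν (l + n) + P ν l + P ν n) := by
  obtain ⟨m, rfl⟩ : ∃ m, n = m + 1 := ⟨n - 1, by omega⟩
  have h1 := P_add_eq ν l m (fun i h1 h2 => h i h1 (by omega))
  have h2 : P ν (l + (m + 1)) = P ν (l + m) + ν (l + (m + 1)) := by
    rw [← add_assoc, P_succ]
  rw [h2, h1, P_succ]
  rcases hν (l + (m + 1)) with h3 | h3 <;> rcases hν (m + 1) with h4 | h4
  · exact absurd (h3.trans h4.symm) hne
  · rw [h3, h4]
    exact ⟨P ν l + P ν m, by ring⟩
  · rw [h3, h4]
    exact ⟨P ν l + P ν m, by ring⟩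
  · exact absurd (h3.trans h4.symm) hne

/-- abstract cutting times -/
structure CutTimes (ν : ℕ → ℕ) (S : ℕ → ℕ) : Prop where
  zero : S 0 = 1
  succ : ∀ k : ℕ, IsLeast {n : ℕ | S k < n ∧ ν n ≠ ν (n - S k)} (S (k + 1))

lemma CutTimes.lt_succ {ν S : ℕ → ℕ} (h : CutTimes ν S) (k : ℕ) : S k < S (k + 1) :=
  (h.succ k).1.1

lemma CutTimes.strictMono {ν S : ℕ → ℕ} (h : CutTimes ν S) : StrictMono S :=
  strictMono_nat_of_lt_succ h.lt_succ

lemma CutTimes.ne {ν S : ℕ → ℕ} (h : CutTimes ν S) (k : ℕ) :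
    ν (S (k + 1)) ≠ ν (S (k + 1) - S k) := (h.succ k).1.2

lemma CutTimes.eq {ν S : ℕ → ℕ} (h : CutTimes ν S) (k i : ℕ) (hi : 1 ≤ i)
    (hi2 : S k + i < S (k + 1)) : ν (S k + i) = ν i := by
  by_contra hne
  have hmem : S k + i ∈ {n : ℕ | S k < n ∧ ν n ≠ ν (n - S k)} := by
    refine ⟨by omega, ?_⟩
    rw [Nat.add_sub_cancel_left]
    exact hne
  have := (h.succ k).2 hmem
  omega

lemma CutTimes.exists_between {ν S : ℕ → ℕ} (h : CutTimes ν S) (l : ℕ) (hl : 1 ≤ l) :
    ∃ k, S k ≤ l ∧ l < S (k + 1) := by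
  have hmono := h.strictMono
  have hex : ∃ k, l < S k := ⟨l + 1, lt_of_lt_of_le (Nat.lt_succ_self l) (hmono.le_apply)⟩
  classical
  have hpos : 0 < Nat.find hex := by
    by_contra h0
    have h0' : Nat.find hex = 0 := by omega
    have := Nat.find_spec hex
    rw [h0', h.zero] at this
    omega
  refine ⟨Nat.find hex - 1, ?_, ?_⟩
  · have := Nat.find_min hex (m := Nat.find hex - 1) (by omega)
    omega
  · have := Nat.find_spec hex
    rwa [Nat.sub_add_cancel hpos]

/-- the shift-maximality property in parity form -/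
def ShiftMax (ν : ℕ → ℕ) : Prop :=
  ∀ b m : ℕ, 1 ≤ b → 1 ≤ m → (∀ i, 1 ≤ i → i < m → ν (b + i) = ν i) → ν (b + m) ≠ ν m →
    Odd (P ν m)

lemma odd_cut {ν S Q : ℕ → ℕ} (hν : ∀ n, ν n = 0 ∨ ν n = 1) (h1 : ν 1 = 1)
    (hS : CutTimes ν S) (hQ : ∀ k, 1 ≤ k → S k - S (k - 1) = S (Q k)) (k : ℕ) :
    Odd (P ν (S k)) := by
  induction k using Nat.strong_induction_on with
  | _ k ih =>
    rcases Nat.eq_zero_or_pos k with rfl | hk
    · rw [hS.zero, show (1 : ℕ) = 0 + 1 from rfl, P_succ, P_zero]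
      simp [h1]
    · obtain ⟨m, rfl⟩ : ∃ m, k = m + 1 := ⟨k - 1, by omega⟩
      have hq := hQ (m + 1) hk
      simp only [Nat.add_sub_cancel] at hq
      have hlt := hS.lt_succ m
      have hSm : 1 ≤ S m := by
        have := hS.strictMono.monotone (Nat.zero_le m)
        rw [hS.zero] at this
        exact this
      have hQlt : Q (m + 1) < m + 1 := by
        rw [← hS.strictMono.lt_iff_lt]
        omega
      have hA := ih m (by omega)
      have hB := ih _ hQlt
      have hsum : S (m + 1) = S m + S (Q (m + 1)) := by omega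
      have hC := P_add_ne hν (S m) (S (Q (m + 1))) (by omega)
        (fun i hi1 hi2 => hS.eq m i hi1 (by omega))
        (by
          have := hS.ne m
          rw [← hsum, ← hq]
          exact this)
      rw [← hsum] at hC
      rw [Nat.odd_iff] at *
      omega

/-- Main combinatorial lemma: near-critical times are even. -/
lemma even_near {ν S Q : ℕ → ℕ} (hν : ∀ n, ν n = 0 ∨ ν n = 1) (h1 : ν 1 = 1)
    (hmax : ShiftMax ν)
    (hS : CutTimes ν S) (hQ : ∀ k, 1 ≤ k → S k - S (k - 1) = S (Q k)) (N : ℕ)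
    (hN : ∀ k, 1 ≤ k → S (Q k) ≤ N) (l : ℕ) (hl : 1 ≤ l)
    (hnear : ∀ i, 1 ≤ i → i ≤ N → ν (l + i) = ν i) : Even (P ν l) := by
  obtain ⟨k, hk1, hk2⟩ := hS.exists_between l hl
  have hq := hQ (k + 1) (by omega)
  simp only [Nat.add_sub_cancel] at hq
  have hqN := hN (k + 1) (by omega)
  have hlt := hS.lt_succ k
  have hne := hS.ne k
  rw [hq] at hne
  have hsum : S (k + 1) = S k + S (Q (k + 1)) := by omega
  rcases Nat.eq_or_lt_of_le hk1 with hEq | hLt
  · exfalso
    have := hnear (S (Q (k + 1))) (by omega) hqN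
    rw [← hEq, ← hsum] at this
    exact hne this
  · obtain ⟨b, hb⟩ : ∃ b, l = S k + b := ⟨l - S k, by omega⟩
    have hb1 : 1 ≤ b := by omega
    obtain ⟨m, hm⟩ : ∃ m, S (Q (k + 1)) = b + m := ⟨S (Q (k + 1)) - b, by omega⟩
    have hm1 : 1 ≤ m := by omega
    have hEqi : ∀ i, 1 ≤ i → i < m → ν (b + i) = ν i := by
      intro i hi1 hi2
      have e1 := hS.eq k (b + i) (by omega) (by omega)
      have e2 := hnear i hi1 (by omega)
      rw [← e1, ← e2, hb, add_assoc]
    have hNe : ν (b + m) ≠ ν m := by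
      have e2 := hnear m hm1 (by omega)
      rw [← hm, ← e2]
      intro h
      apply hne
      rw [h, hb, hsum, hm, add_assoc]
    have hPm := hmax b m hb1 hm1 hEqi hNe
    have hA := P_add_ne hν b m hm1 hEqi hNe
    have hB := odd_cut hν h1 hS hQ (Q (k + 1))
    rw [hm] at hB
    have hC := odd_cut hν h1 hS hQ k
    have hD := P_add_eq ν (S k) b (fun i hi1 hi2 => hS.eq k i hi1 (by omega))
    rw [hb, hD, Nat.even_iff]
    rw [Nat.odd_iff] at *
    omega

end Pool.Agent.W_MP_23b248_an
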