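import Mathlib
import Pool.Agent.W_MP_23b248_an.Defs
import Pool.Agent.W_MP_23b248_an.Parity

set_option autoImplicit false

/-!
Basic facts on unimodal maps: shift-maximality of the kneading sequence, and the omega-limit set.
-/

namespace Pool.Agent.W_MP_23b248_an

open Filter Topology

variable {f : unitInterval → unitInterval} {c : unitInterval}

lemma IsUnimodal.lt_left (hf : IsUnimodal f c) {x y : unitInterval} (h : x < y) (hy : y ≤ c) :
    f x < f y :=
  hf.incr ⟨unitInterval.nonneg', h.le.trans hy⟩ ⟨unitInterval.nonneg', hy⟩ h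

lemma IsUnimodal.lt_right (hf : IsUnimodal f c) {x y : unitInterval} (h : x < y) (hx : c ≤ x) :
    f y < f x :=
  hf.decr ⟨hx, unitInterval.le_one'⟩ ⟨hx.trans h.le, unitInterval.le_one'⟩ h

lemma IsUnimodal.lt_max (hf : IsUnimodal f c) {x : unitInterval} (h : x ≠ c) : f x < f c := by
  rcases lt_or_gt_of_ne h with h | h
  · exact hf.lt_left h le_rfl
  · exact hf.lt_right h le_rfl

lemma kneading_zero_or_one (f : unitInterval → unitInterval) (c : unitInterval) (n : ℕ) :
    kneading f c n = 0 ∨ kneading f c n = 1 := by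
  unfold kneading
  split_ifs <;> simp

lemma kneading_eq_one_iff (f : unitInterval → unitInterval) (c : unitInterval) (n : ℕ) :
    kneading f c n = 1 ↔ c < f^[n] c := by
  unfold kneading
  split_ifs with h <;> simp [h]

lemma kneading_eq_zero_iff (f : unitInterval → unitInterval) (c : unitInterval) (n : ℕ)
    (h : f^[n] c ≠ c) :
    kneading f c n = 0 ↔ f^[n] c < c := by
  unfold kneading
  split_ifs with h1
  · simp [h1.le]
  · simp only [true_iff]
    exact lt_of_le_of_ne (not_lt.mp h1) h

lemma kneading_one (hf : IsUnimodal f c) : kneading f c 1 = 1 :=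
  (kneading_eq_one_iff f c 1).2 hf.c_lt_c1

lemma shiftMax_kneading (hf : IsUnimodal f c) (hper : ∀ n : ℕ, 1 ≤ n → f^[n] c ≠ c) :
    ShiftMax (kneading f c) := by
  intro b m hb hm heq hne
  have key : ∀ j : ℕ, j + 1 ≤ m →
      (Even (P (kneading f c) j) → f^[b + (j + 1)] c < f^[j + 1] c) ∧
      (Odd (P (kneading f c) j) → f^[j + 1] c < f^[b + (j + 1)] c) := by
    intro j
    induction j with
    | zero =>
      intro _
      refine ⟨fun _ => ?_, fun h => ?_⟩
      · have h1 : f^[b + (0 + 1)] c = f (f^[b] c) := by
          rw [show b + (0 + 1) = b + 1 from rfl, Function.iterate_succ_apply']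
        rw [h1]
        exact hf.lt_max (hper b hb)
      · rw [P_zero] at h
        exact absurd h (by decide)
    | succ j ih =>
      intro hj
      have ih' := ih (by omega)
      have hν := heq (j + 1) (by omega) (by omega)
      have e1 : f^[b + (j + 1 + 1)] c = f (f^[b + (j + 1)] c) := by
        rw [show b + (j + 1 + 1) = (b + (j + 1)) + 1 by omega, Function.iterate_succ_apply']
      have e2 : f^[j + 1 + 1] c = f (f^[j + 1] c) := Function.iterate_succ_apply' f (j + 1) c
      rw [e1, e2, P_succ]
      rcases kneading_zero_or_one f c (j + 1) with h0 | h0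
      · have hA := (kneading_eq_zero_iff f c (j + 1) (hper _ (by omega))).1 h0
        have hB := (kneading_eq_zero_iff f c (b + (j + 1)) (hper _ (by omega))).1 (hν.trans h0)
        rw [h0, add_zero]
        exact ⟨fun h => hf.lt_left (ih'.1 h) hA.le, fun h => hf.lt_left (ih'.2 h) hB.le⟩
      · have hA := (kneading_eq_one_iff f c (j + 1)).1 h0
        have hB := (kneading_eq_one_iff f c (b + (j + 1))).1 (hν.trans h0)
        rw [h0]
        refine ⟨fun h => hf.lt_right (ih'.2 ?_) hA.le, fun h => hf.lt_right (ih'.1 ?_) hB.le⟩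
        · rw [Nat.even_add_one, Nat.not_even_iff_odd] at h
          exact h
        · rw [Nat.odd_add_one, Nat.not_odd_iff_even] at h
          exact h
  obtain ⟨j, rfl⟩ : ∃ j, m = j + 1 := ⟨m - 1, by omega⟩
  obtain ⟨k1, k2⟩ := key j le_rfl
  rw [P_succ]
  rcases Nat.even_or_odd (P (kneading f c) j) with h | h
  · have hlt := k1 h
    have h1 : kneading f c (j + 1) = 1 := by
      rcases kneading_zero_or_one f c (j + 1) with h0 | h0
      · exfalso
        have hA := (kneading_eq_zero_iff f c (j + 1) (hper _ (by omega))).1 h0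
        have hB := (kneading_eq_zero_iff f c (b + (j + 1)) (hper _ (by omega))).2 (hlt.trans hA)
        exact hne (hB.trans h0.symm)
      · exact h0
    rw [h1]
    exact Even.add_one h
  · have hlt := k2 h
    have h1 : kneading f c (j + 1) = 0 := by
      rcases kneading_zero_or_one f c (j + 1) with h0 | h0
      · exact h0
      · exfalso
        have hA := (kneading_eq_one_iff f c (j + 1)).1 h0
        have hB := (kneading_eq_one_iff f c (b + (j + 1))).2 (hA.trans hlt)
        exact hne (hB.trans h0.symm)
    rw [h1]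
    simpa using h

/-! ### omega-limit set -/

lemma isClosed_omega (f : unitInterval → unitInterval) (y : unitInterval) :
    IsClosed (omega f y) := isClosed_setOfPred_clusterPt

lemma mapsTo_omega (hcont : Continuous f) (y : unitInterval) {z : unitInterval}
    (hz : z ∈ omega f y) : f z ∈ omega f y := by
  have h1 : MapClusterPt (f z) atTop (f ∘ fun n : ℕ => f^[n] y) :=
    MapClusterPt.continuousAt_comp hcont.continuousAt hz
  have h2 : (f ∘ fun n : ℕ => f^[n] y) = (fun n : ℕ => f^[n] y) ∘ fun n => n + 1 := by
    ext1 n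
    simp [Function.iterate_succ_apply']
  rw [h2] at h1
  exact MapClusterPt.of_comp (tendsto_add_atTop_nat 1) h1

lemma iterate_mem_omega (hcont : Continuous f) (y : unitInterval) {z : unitInterval}
    (hz : z ∈ omega f y) (n : ℕ) : f^[n] z ∈ omega f y := by
  induction n with
  | zero => simpa using hz
  | succ n ih =>
    rw [Function.iterate_succ_apply']
    exact mapsTo_omega hcont y ih

lemma nonempty_omega (f : unitInterval → unitInterval) (y : unitInterval) :
    (omega f y).Nonempty := by
  obtain ⟨z, -, hz⟩ := isCompact_univ.exists_mapClusterPt (f := atTop) (u := fun n : ℕ => f^[n] y)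
    (by simp)
  exact ⟨z, hz⟩

lemma mem_omega_iff (f : unitInterval → unitInterval) (y z : unitInterval) :
    z ∈ omega f y ↔ ∀ U ∈ 𝓝 z, ∀ N : ℕ, ∃ n, N ≤ n ∧ f^[n] y ∈ U := by
  unfold omega
  rw [Set.mem_ofPred_eq, mapClusterPt_iff_frequently]
  constructor
  · intro h U hU N
    obtain ⟨n, hn⟩ := (Filter.frequently_atTop.1 (h U hU)) N
    exact ⟨n, hn.1, hn.2⟩
  · intro h U hU
    rw [Filter.frequently_atTop]
    intro N
    obtain ⟨n, h1, h2⟩ := h U hU N
    exact ⟨n, h1, h2⟩

end Pool.Agent.W_MP_23b248_an
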