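import Mathlib

set_option autoImplicit false

/-!
Irrational rotation: fractional parts of `n β`.
-/

namespace Pool.Agent.W_MP_23b248_an

open Filter Topology

/-- the fractional part of `n β` -/
noncomputable def sn (β : ℝ) (n : ℤ) : ℝ := Int.fract ((n : ℝ) * β)

lemma sn_nonneg (β : ℝ) (n : ℤ) : 0 ≤ sn β n := Int.fract_nonneg _

lemma sn_lt_one (β : ℝ) (n : ℤ) : sn β n < 1 := Int.fract_lt_one _

lemma sn_zero (β : ℝ) : sn β 0 = 0 := by simp [sn]

lemma sn_inj {β : ℝ} (hβ : Irrational β) {m n : ℤ} (h : sn β m = sn β n) : m = n := by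
  unfold sn at h
  rw [Int.fract_eq_fract] at h
  obtain ⟨z, hz⟩ := h
  by_contra hne
  have h1 : ((m - n : ℤ) : ℝ) * β = z := by
    push_cast
    linarith
  have h2 : ((m - n : ℤ) : ℝ) ≠ 0 := by
    exact_mod_cast sub_ne_zero.2 hne
  apply hβ
  refine ⟨(z : ℚ) / ((m - n : ℤ) : ℚ), ?_⟩
  rw [Rat.cast_div, Rat.cast_intCast, Rat.cast_intCast, div_eq_iff h2, ← h1]
  ring

lemma fract_eq_of_int {x y : ℝ} (z : ℤ) (h : x = y + z) (h0 : 0 ≤ y) (h1 : y < 1) :
    Int.fract x = y := by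
  rw [h, Int.fract_add_intCast]
  exact Int.fract_eq_self.2 ⟨h0, h1⟩

lemma sn_succ_of_lt {β : ℝ} (h0 : 0 < β) (n : ℤ) (h : sn β n < 1 - β) :
    sn β (n + 1) = sn β n + β := by
  have h1 : (n : ℝ) * β = sn β n + ⌊(n : ℝ) * β⌋ := by
    unfold sn
    exact (Int.fract_add_floor _).symm
  have h2 : ((n + 1 : ℤ) : ℝ) * β = (sn β n + β) + ⌊(n : ℝ) * β⌋ := by
    push_cast
    linarith
  have h3 := sn_nonneg β n
  exact fract_eq_of_int _ h2 (by linarith) (by linarith)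

lemma sn_succ_of_ge {β : ℝ} (h1 : β < 1) (n : ℤ) (h : 1 - β ≤ sn β n) :
    sn β (n + 1) = sn β n + β - 1 := by
  have h1 : (n : ℝ) * β = sn β n + ⌊(n : ℝ) * β⌋ := by
    unfold sn
    exact (Int.fract_add_floor _).symm
  have h2 : ((n + 1 : ℤ) : ℝ) * β = (sn β n + β - 1) + ((⌊(n : ℝ) * β⌋ + 1 : ℤ) : ℝ) := by
    push_cast
    linarith
  have h3 := sn_lt_one β n
  exact fract_eq_of_int _ h2 (by linarith) (by linarith)

lemma sn_neg_one {β : ℝ} (h0 : 0 < β) (h1 : β < 1) : sn β (-1) = 1 - β := by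
  refine fract_eq_of_int (-1) ?_ (by linarith) (by linarith)
  push_cast
  ring

lemma sn_neg_two {β : ℝ} (h0 : 0 < β) (h1 : β < 1 / 3) : sn β (-2) = 1 - 2 * β := by
  refine fract_eq_of_int (-1) ?_ (by linarith) (by linarith)
  push_cast
  ring

lemma sn_one {β : ℝ} (h0 : 0 < β) (h1 : β < 1) : sn β 1 = β := by
  refine fract_eq_of_int 0 ?_ (by linarith) (by linarith)
  push_cast
  ring

/-- Forward orbits of the rotation are dense. -/
lemma rot_dense {β : ℝ} (hβ : Irrational β) (x lo hi : ℝ) (h0 : 0 ≤ lo) (h1 : lo < hi)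
    (h2 : hi ≤ 1) : ∃ n : ℕ, Int.fract (x + n * β) ∈ Set.Ioo lo hi := by
  have hd : DenseRange (· • (β : AddCircle (1 : ℝ)) : ℤ → AddCircle (1 : ℝ)) := by
    rw [AddCircle.denseRange_zsmul_coe_iff]
    simpa using hβ
  have hd' : DenseRange (· • (β : AddCircle (1 : ℝ)) : ℕ → AddCircle (1 : ℝ)) :=
    denseRange_zsmul_iff_nsmul.1 hd
  have hopen : IsOpen ((fun z : AddCircle (1 : ℝ) => z + (x : AddCircle (1 : ℝ))) ⁻¹'
      ((fun y : ℝ => (y : AddCircle (1 : ℝ))) '' Set.Ioo lo hi)) := by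
    refine IsOpen.preimage (by fun_prop) ?_
    exact QuotientAddGroup.isOpenMap_coe _ isOpen_Ioo
  obtain ⟨_, hz, n, rfl⟩ := hd'.inter_open_nonempty _ hopen (by
    refine ⟨(((lo + hi) / 2 - x : ℝ) : AddCircle (1 : ℝ)), (lo + hi) / 2, ?_, ?_⟩
    · constructor <;> linarith
    · change (((lo + hi) / 2 : ℝ) : AddCircle (1 : ℝ)) =
        (((lo + hi) / 2 - x : ℝ) : AddCircle (1 : ℝ)) + (x : AddCircle (1 : ℝ))
      rw [← AddCircle.coe_add]
      congr 1
      ring)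
  obtain ⟨y, hy, hyz⟩ := hz
  simp only at hyz
  rw [← AddCircle.coe_nsmul, ← AddCircle.coe_add] at hyz
  have h3 : ∃ k : ℤ, y - (n • β + x) = k • (1 : ℝ) := by
    rw [eq_comm, ← sub_eq_zero, ← AddCircle.coe_sub, AddCircle.coe_eq_zero_iff] at hyz
    obtain ⟨k, hk⟩ := hyz
    refine ⟨-k, ?_⟩
    rw [neg_smul, hk]
    ring
  obtain ⟨k, hk⟩ := h3
  refine ⟨n, ?_⟩
  have : Int.fract (x + n * β) = y := by
    refine fract_eq_of_int (-k) ?_ (by linarith [hy.1]) (by linarith [hy.2])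
    simp only [nsmul_eq_mul, zsmul_eq_mul, mul_one] at hk
    push_cast
    linarith
  rw [this]
  exact hy

end Pool.Agent.W_MP_23b248_an
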