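import Mathlib
import Pool.Agent.W_MP_23b248_an.Rot

set_option autoImplicit false

/-!
Blowing up the orbit of an irrational rotation: jump functions.
-/

namespace Pool.Agent.W_MP_23b248_an

open Filter Topology

/-! ### weights -/

/-- unnormalised weights -/
noncomputable def base (n : ℤ) : ℝ := if n = 0 ∨ n = -1 then 0 else (1 / 2) ^ n.natAbs

lemma base_nonneg (n : ℤ) : 0 ≤ base n := by
  unfold base
  split_ifs <;> positivity

lemma summable_half_int : Summable (fun n : ℤ => ((1 : ℝ) / 2) ^ n.natAbs) := by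
  refine Summable.of_nat_of_neg ?_ ?_
  · simpa using summable_geometric_two
  · simpa using summable_geometric_two

lemma summable_base : Summable base := by
  refine Summable.of_nonneg_of_le base_nonneg (fun n => ?_) summable_half_int
  unfold base
  split_ifs
  · positivity
  · exact le_rfl

lemma tsum_base_pos : 0 < ∑' k, base k := by
  refine summable_base.tsum_pos base_nonneg 1 ?_
  unfold base
  norm_num

/-- normalised weights, with total sum `1/4` -/
noncomputable def wt (n : ℤ) : ℝ := base n / (4 * ∑' k, base k)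

lemma wt_nonneg (n : ℤ) : 0 ≤ wt n :=
  div_nonneg (base_nonneg n) (mul_nonneg (by norm_num) tsum_base_pos.le)

lemma wt_pos {n : ℤ} (h0 : n ≠ 0) (h1 : n ≠ -1) : 0 < wt n := by
  refine div_pos ?_ (mul_pos (by norm_num) tsum_base_pos)
  unfold base
  rw [if_neg (by tauto)]
  positivity

lemma wt_zero : wt 0 = 0 := by simp [wt, base]

lemma wt_neg_one : wt (-1) = 0 := by simp [wt, base]

lemma summable_wt : Summable wt := summable_base.div_const _

lemma tsum_wt : ∑' n, wt n = 1 / 4 := by
  unfold wt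
  rw [tsum_div_const]
  have := tsum_base_pos
  field_simp

lemma summable_wt_succ : Summable (fun n : ℤ => wt (n + 1)) :=
  (Equiv.addRight (1 : ℤ)).summable_iff.2 summable_wt

/-! ### jump functions -/

open Classical in
/-- total mass of the points strictly to the left of `x` -/
noncomputable def Sm (β : ℝ) (v : ℤ → ℝ) (x : ℝ) : ℝ := ∑' n, if sn β n < x then v n else 0

open Classical in
/-- total mass of the points at or to the left of `x` -/
noncomputable def Sp (β : ℝ) (v : ℤ → ℝ) (x : ℝ) : ℝ := ∑' n, if sn β n ≤ x then v n else 0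

section

variable {β : ℝ} {v : ℤ → ℝ}

lemma summable_ite (hv0 : ∀ n, 0 ≤ v n) (hv : Summable v) (p : ℤ → Prop) [DecidablePred p] :
    Summable (fun n => if p n then v n else 0) := by
  refine Summable.of_nonneg_of_le (fun n => ?_) (fun n => ?_) hv
  · split_ifs
    · exact hv0 n
    · exact le_rfl
  · split_ifs
    · exact le_rfl
    · exact hv0 n

lemma tsum_ite_le (hv0 : ∀ n, 0 ≤ v n) (hv : Summable v) (p q : ℤ → Prop) [DecidablePred p]
    [DecidablePred q] (hpq : ∀ n, p n → q n) :
    (∑' n, if p n then v n else 0) ≤ ∑' n, if q n then v n else 0 := by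
  refine (summable_ite hv0 hv p).tsum_le_tsum (fun n => ?_) (summable_ite hv0 hv q)
  split_ifs with h1 h2 h2
  · exact le_rfl
  · exact absurd (hpq n h1) h2
  · exact hv0 n
  · exact le_rfl

lemma Sm_nonneg (hv0 : ∀ n, 0 ≤ v n) (x : ℝ) : 0 ≤ Sm β v x := by
  classical
  refine tsum_nonneg fun n => ?_
  split_ifs
  · exact hv0 n
  · exact le_rfl

lemma Sm_mono (hv0 : ∀ n, 0 ≤ v n) (hv : Summable v) {x y : ℝ} (h : x ≤ y) :
    Sm β v x ≤ Sm β v y := by
  classical
  exact tsum_ite_le hv0 hv _ _ fun n hn => lt_of_lt_of_le hn h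

lemma Sp_mono (hv0 : ∀ n, 0 ≤ v n) (hv : Summable v) {x y : ℝ} (h : x ≤ y) :
    Sp β v x ≤ Sp β v y := by
  classical
  exact tsum_ite_le hv0 hv _ _ fun n hn => le_trans hn h

lemma Sm_le_Sp (hv0 : ∀ n, 0 ≤ v n) (hv : Summable v) (x : ℝ) :
    Sm β v x ≤ Sp β v x := by
  classical
  exact tsum_ite_le hv0 hv _ _ fun n hn => le_of_lt hn

lemma Sp_le_Sm (hv0 : ∀ n, 0 ≤ v n) (hv : Summable v) {x y : ℝ} (h : x < y) :
    Sp β v x ≤ Sm β v y := by
  classical
  exact tsum_ite_le hv0 hv _ _ fun n hn => lt_of_le_of_lt hn h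

lemma Sp_sub_Sm_self (hβ : Irrational β) (hv0 : ∀ n, 0 ≤ v n) (hv : Summable v) (m : ℤ) :
    Sp β v (sn β m) - Sm β v (sn β m) = v m := by
  classical
  unfold Sp Sm
  rw [← (summable_ite hv0 hv _).tsum_sub (summable_ite hv0 hv _), tsum_eq_single m]
  · simp
  · intro n hn
    have hne : sn β n ≠ sn β m := fun h => hn (sn_inj hβ h)
    by_cases h : sn β n < sn β m
    · simp [h, h.le]
    · have h' : ¬ sn β n ≤ sn β m := fun h'' => h (lt_of_le_of_ne h'' hne)
      simp [h, h']

lemma Sp_eq_Sm (x : ℝ) (hx : ∀ n, sn β n ≠ x) : Sp β v x = Sm β v x := by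
  classical
  unfold Sp Sm
  refine tsum_congr fun n => ?_
  have : sn β n ≤ x ↔ sn β n < x := ⟨fun h => lt_of_le_of_ne h (hx n), le_of_lt⟩
  simp [this]

open Classical in
lemma tendsto_left (hv0 : ∀ n, 0 ≤ v n) (hv : Summable v) (x : ℝ) :
    Tendsto (Sm β v) (𝓝[<] x) (𝓝 (Sm β v x)) ∧ Tendsto (Sp β v) (𝓝[<] x) (𝓝 (Sm β v x)) := by
  constructor
  · refine tendsto_tsum_of_dominated_convergence (f := fun y n => if sn β n < y then v n else 0)
      hv (fun n => ?_) (Eventually.of_forall fun y n => ?_)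
    · by_cases h : sn β n < x
      · rw [if_pos h]
        refine tendsto_const_nhds.congr' ?_
        filter_upwards [mem_nhdsWithin_of_mem_nhds (Ioi_mem_nhds h)] with y hy
        rw [if_pos (show sn β n < y from hy)]
      · rw [if_neg h]
        refine tendsto_const_nhds.congr' ?_
        filter_upwards [self_mem_nhdsWithin] with y hy
        rw [if_neg]
        intro h'
        exact h (h'.trans hy)
    · rw [Real.norm_eq_abs]
      split_ifs
      · exact (abs_of_nonneg (hv0 n)).le
      · simpa using hv0 n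
  · refine tendsto_tsum_of_dominated_convergence (f := fun y n => if sn β n ≤ y then v n else 0)
      hv (fun n => ?_) (Eventually.of_forall fun y n => ?_)
    · by_cases h : sn β n < x
      · rw [if_pos h]
        refine tendsto_const_nhds.congr' ?_
        filter_upwards [mem_nhdsWithin_of_mem_nhds (Ioi_mem_nhds h)] with y hy
        rw [if_pos (le_of_lt hy)]
      · rw [if_neg h]
        refine tendsto_const_nhds.congr' ?_
        filter_upwards [self_mem_nhdsWithin] with y hy
        rw [if_neg]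
        intro h'
        exact h (lt_of_le_of_lt h' hy)
    · rw [Real.norm_eq_abs]
      split_ifs
      · exact (abs_of_nonneg (hv0 n)).le
      · simpa using hv0 n

open Classical in
lemma tendsto_right (hv0 : ∀ n, 0 ≤ v n) (hv : Summable v) (x : ℝ) :
    Tendsto (Sm β v) (𝓝[>] x) (𝓝 (Sp β v x)) ∧ Tendsto (Sp β v) (𝓝[>] x) (𝓝 (Sp β v x)) := by
  constructor
  · refine tendsto_tsum_of_dominated_convergence (f := fun y n => if sn β n < y then v n else 0)
      hv (fun n => ?_) (Eventually.of_forall fun y n => ?_)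
    · by_cases h : sn β n ≤ x
      · rw [if_pos h]
        refine tendsto_const_nhds.congr' ?_
        filter_upwards [self_mem_nhdsWithin] with y hy
        rw [if_pos (lt_of_le_of_lt h hy)]
      · rw [if_neg h]
        refine tendsto_const_nhds.congr' ?_
        filter_upwards [mem_nhdsWithin_of_mem_nhds (Iio_mem_nhds (not_le.1 h))] with y hy
        rw [if_neg]
        exact not_lt.2 (le_of_lt hy)
    · rw [Real.norm_eq_abs]
      split_ifs
      · exact (abs_of_nonneg (hv0 n)).le
      · simpa using hv0 n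
  · refine tendsto_tsum_of_dominated_convergence (f := fun y n => if sn β n ≤ y then v n else 0)
      hv (fun n => ?_) (Eventually.of_forall fun y n => ?_)
    · by_cases h : sn β n ≤ x
      · rw [if_pos h]
        refine tendsto_const_nhds.congr' ?_
        filter_upwards [self_mem_nhdsWithin] with y hy
        rw [if_pos (le_trans h (le_of_lt hy))]
      · rw [if_neg h]
        refine tendsto_const_nhds.congr' ?_
        filter_upwards [mem_nhdsWithin_of_mem_nhds (Iio_mem_nhds (not_le.1 h))] with y hy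
        rw [if_neg]
        exact not_le.2 hy
    · rw [Real.norm_eq_abs]
      split_ifs
      · exact (abs_of_nonneg (hv0 n)).le
      · simpa using hv0 n

/-! shift relations -/

lemma Sm_add (h0 : 0 < β) (h1 : β < 1) (hv0 : ∀ n, 0 ≤ v n) (hv : Summable v) {s : ℝ}
    (hs0 : 0 ≤ s) (hs1 : s ≤ 1 - β) :
    Sm β v (s + β) = Sm β v β + Sm β (fun n => v (n + 1)) s := by
  classical
  have hv' : Summable (fun n : ℤ => v (n + 1)) := (Equiv.addRight (1 : ℤ)).summable_iff.2 hv
  have key : ∀ t : ℝ, Sm β v t = ∑' n : ℤ, if sn β (n + 1) < t then v (n + 1) else 0 := by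
    intro t
    unfold Sm
    exact ((Equiv.addRight (1 : ℤ)).tsum_eq (fun n => if sn β n < t then v n else 0)).symm
  rw [key (s + β), key β]
  unfold Sm
  rw [← (summable_ite (fun n => hv0 (n + 1)) hv' _).tsum_add
    (summable_ite (fun n => hv0 (n + 1)) hv' _)]
  refine tsum_congr fun n => ?_
  by_cases h : sn β n < 1 - β
  · rw [sn_succ_of_lt h0 n h]
    have h2 := sn_nonneg β n
    rw [if_neg (show ¬ sn β n + β < β by linarith), zero_add]
    by_cases h3 : sn β n < s
    · rw [if_pos h3, if_pos (by linarith)]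
    · rw [if_neg h3, if_neg (by linarith)]
  · have h4 := not_lt.1 h
    rw [sn_succ_of_ge h1 n h4]
    have h2 := sn_lt_one β n
    rw [if_pos (show sn β n + β - 1 < s + β by linarith),
      if_pos (show sn β n + β - 1 < β by linarith), if_neg (show ¬ sn β n < s by linarith),
      add_zero]

lemma Sp_add (h0 : 0 < β) (h1 : β < 1) (hv0 : ∀ n, 0 ≤ v n) (hv : Summable v) {s : ℝ}
    (hs0 : 0 ≤ s) (hs1 : s < 1 - β) :
    Sp β v (s + β) = Sm β v β + Sp β (fun n => v (n + 1)) s := by
  classical
  have hv' : Summable (fun n : ℤ => v (n + 1)) := (Equiv.addRight (1 : ℤ)).summable_iff.2 hv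
  have key : ∀ t : ℝ, Sm β v t = ∑' n : ℤ, if sn β (n + 1) < t then v (n + 1) else 0 := by
    intro t
    unfold Sm
    exact ((Equiv.addRight (1 : ℤ)).tsum_eq (fun n => if sn β n < t then v n else 0)).symm
  have key' : ∀ t : ℝ, Sp β v t = ∑' n : ℤ, if sn β (n + 1) ≤ t then v (n + 1) else 0 := by
    intro t
    unfold Sp
    exact ((Equiv.addRight (1 : ℤ)).tsum_eq (fun n => if sn β n ≤ t then v n else 0)).symm
  rw [key' (s + β), key β]
  unfold Sp
  rw [← (summable_ite (fun n => hv0 (n + 1)) hv' _).tsum_add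
    (summable_ite (fun n => hv0 (n + 1)) hv' _)]
  refine tsum_congr fun n => ?_
  by_cases h : sn β n < 1 - β
  · rw [sn_succ_of_lt h0 n h]
    have h2 := sn_nonneg β n
    rw [if_neg (show ¬ sn β n + β < β by linarith), zero_add]
    by_cases h3 : sn β n ≤ s
    · rw [if_pos h3, if_pos (by linarith)]
    · rw [if_neg h3, if_neg (by linarith)]
  · have h4 := not_lt.1 h
    rw [sn_succ_of_ge h1 n h4]
    have h2 := sn_lt_one β n
    rw [if_pos (show sn β n + β - 1 ≤ s + β by linarith),
      if_pos (show sn β n + β - 1 < β by linarith), if_neg (show ¬ sn β n ≤ s by linarith),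
      add_zero]

lemma Sm_sub (h0 : 0 < β) (h1 : β < 1) (hv0 : ∀ n, 0 ≤ v n) (hv : Summable v) {s : ℝ}
    (hs0 : 1 - β ≤ s) (hs1 : s ≤ 1) :
    Sm β v (s + β - 1) = Sm β (fun n => v (n + 1)) s - Sm β (fun n => v (n + 1)) (1 - β) := by
  classical
  have hv' : Summable (fun n : ℤ => v (n + 1)) := (Equiv.addRight (1 : ℤ)).summable_iff.2 hv
  have key : ∀ t : ℝ, Sm β v t = ∑' n : ℤ, if sn β (n + 1) < t then v (n + 1) else 0 := by
    intro t
    unfold Sm
    exact ((Equiv.addRight (1 : ℤ)).tsum_eq (fun n => if sn β n < t then v n else 0)).symm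
  rw [key (s + β - 1)]
  unfold Sm
  rw [← (summable_ite (fun n => hv0 (n + 1)) hv' _).tsum_sub
    (summable_ite (fun n => hv0 (n + 1)) hv' _)]
  refine tsum_congr fun n => ?_
  by_cases h : sn β n < 1 - β
  · rw [sn_succ_of_lt h0 n h]
    have h2 := sn_nonneg β n
    rw [if_neg (show ¬ sn β n + β < s + β - 1 by linarith), if_pos h, if_pos (by linarith),
      sub_self]
  · have h4 := not_lt.1 h
    rw [sn_succ_of_ge h1 n h4, if_neg h, sub_zero]
    by_cases h3 : sn β n < s
    · rw [if_pos h3, if_pos (by linarith)]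
    · rw [if_neg h3, if_neg (by linarith)]

lemma Sp_sub (h0 : 0 < β) (h1 : β < 1) (hv0 : ∀ n, 0 ≤ v n) (hv : Summable v) {s : ℝ}
    (hs0 : 1 - β ≤ s) (hs1 : s < 1) :
    Sp β v (s + β - 1) = Sp β (fun n => v (n + 1)) s - Sm β (fun n => v (n + 1)) (1 - β) := by
  classical
  have hv' : Summable (fun n : ℤ => v (n + 1)) := (Equiv.addRight (1 : ℤ)).summable_iff.2 hv
  have key' : ∀ t : ℝ, Sp β v t = ∑' n : ℤ, if sn β (n + 1) ≤ t then v (n + 1) else 0 := by
    intro t
    unfold Sp
    exact ((Equiv.addRight (1 : ℤ)).tsum_eq (fun n => if sn β n ≤ t then v n else 0)).symm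
  rw [key' (s + β - 1)]
  unfold Sp Sm
  rw [← (summable_ite (fun n => hv0 (n + 1)) hv' _).tsum_sub
    (summable_ite (fun n => hv0 (n + 1)) hv' _)]
  refine tsum_congr fun n => ?_
  by_cases h : sn β n < 1 - β
  · rw [sn_succ_of_lt h0 n h]
    have h2 := sn_nonneg β n
    rw [if_neg (show ¬ sn β n + β ≤ s + β - 1 by linarith), if_pos h, if_pos (by linarith),
      sub_self]
  · have h4 := not_lt.1 h
    rw [sn_succ_of_ge h1 n h4, if_neg h, sub_zero]
    by_cases h3 : sn β n ≤ s
    · rw [if_pos h3, if_pos (by linarith)]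
    · rw [if_neg h3, if_neg (by linarith)]

lemma Sm_zero : Sm β v 0 = 0 := by
  classical
  unfold Sm
  have : (fun n : ℤ => if sn β n < 0 then v n else 0) = fun _ => 0 := by
    ext1 n
    rw [if_neg (not_lt.2 (sn_nonneg β n))]
  rw [this, tsum_zero]

lemma Sm_one : Sm β v 1 = ∑' n, v n := by
  classical
  unfold Sm
  refine tsum_congr fun n => ?_
  rw [if_pos (sn_lt_one β n)]

lemma Sp_one : Sp β v 1 = ∑' n, v n := by
  classical
  unfold Sp
  refine tsum_congr fun n => ?_
  rw [if_pos (sn_lt_one β n).le]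

end

end Pool.Agent.W_MP_23b248_an
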