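import Mathlib
import Pool.Agent.W_MP_23b248_an.Blow

set_option autoImplicit false

/-!
The blown-up rotation as an explicit continuous function `G`.
-/

namespace Pool.Agent.W_MP_23b248_an

open Filter Topology

noncomputable def phm (β x : ℝ) : ℝ := x / 4 + Sm β wt x
noncomputable def php (β x : ℝ) : ℝ := x / 4 + Sp β wt x
noncomputable def psm (β x : ℝ) : ℝ := x / 4 + Sm β (fun n => wt (n + 1)) x
noncomputable def psp (β x : ℝ) : ℝ := x / 4 + Sp β (fun n => wt (n + 1)) x

/-- parameters of the construction -/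
structure Par (β : ℝ) : Prop where
  irr : Irrational β
  pos : 0 < β
  lt : β < 1 / 3

section

variable {β : ℝ}

lemma wts_nonneg (n : ℤ) : 0 ≤ wt (n + 1) := wt_nonneg _

lemma php_lt_phm (x y : ℝ) (h : x < y) : php β x < phm β y := by
  unfold php phm
  have := Sp_le_Sm (β := β) wt_nonneg summable_wt h
  linarith

lemma phm_le_php (x : ℝ) : phm β x ≤ php β x := by
  unfold php phm
  have := Sm_le_Sp (β := β) wt_nonneg summable_wt x
  linarith

lemma psp_lt_psm (x y : ℝ) (h : x < y) : psp β x < psm β y := by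
  unfold psp psm
  have := Sp_le_Sm (β := β) wts_nonneg summable_wt_succ h
  linarith

lemma psm_le_psp (x : ℝ) : psm β x ≤ psp β x := by
  unfold psp psm
  have := Sm_le_Sp (β := β) wts_nonneg summable_wt_succ x
  linarith

lemma phm_lt_phm {x y : ℝ} (h : x < y) : phm β x < phm β y :=
  lt_of_le_of_lt (phm_le_php x) (php_lt_phm x y h)

lemma php_lt_php {x y : ℝ} (h : x < y) : php β x < php β y :=
  lt_of_lt_of_le (php_lt_phm x y h) (phm_le_php y)

lemma phm_mono {x y : ℝ} (h : x ≤ y) : phm β x ≤ phm β y := by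
  rcases h.eq_or_lt with rfl | h
  · exact le_rfl
  · exact (phm_lt_phm h).le

lemma php_mono {x y : ℝ} (h : x ≤ y) : php β x ≤ php β y := by
  rcases h.eq_or_lt with rfl | h
  · exact le_rfl
  · exact (php_lt_php h).le

lemma phm_lt_php {x y : ℝ} (h : x < y) : phm β x < php β y :=
  lt_of_lt_of_le (phm_lt_phm h) (phm_le_php y)

lemma phm_zero : phm β 0 = 0 := by simp [phm, Sm_zero]

lemma phm_one : phm β 1 = 1 / 2 := by
  unfold phm
  rw [Sm_one, tsum_wt]
  norm_num

lemma php_one : php β 1 = 1 / 2 := by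
  unfold php
  rw [Sp_one, tsum_wt]
  norm_num

lemma psm_zero : psm β 0 = 0 := by simp [psm, Sm_zero]

lemma php_sub_phm (h : Par β) (m : ℤ) : php β (sn β m) - phm β (sn β m) = wt m := by
  have := Sp_sub_Sm_self h.irr wt_nonneg summable_wt m
  unfold php phm
  linarith

lemma psp_sub_psm (h : Par β) (m : ℤ) : psp β (sn β m) - psm β (sn β m) = wt (m + 1) := by
  have := Sp_sub_Sm_self h.irr wts_nonneg summable_wt_succ m
  unfold psp psm
  linarith

lemma php_zero (h : Par β) : php β 0 = 0 := by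
  have := php_sub_phm h 0
  rw [sn_zero, phm_zero, wt_zero] at this
  linarith

lemma psp_zero (h : Par β) : psp β 0 = wt 1 := by
  have := psp_sub_psm h 0
  rw [sn_zero, psm_zero, zero_add] at this
  linarith

lemma php_b1 (h : Par β) : php β (1 - β) = phm β (1 - β) := by
  have := php_sub_phm h (-1)
  rw [sn_neg_one h.pos (by linarith [h.lt]), wt_neg_one] at this
  linarith

lemma psp_b1 (h : Par β) : psp β (1 - β) = psm β (1 - β) := by
  have := psp_sub_psm h (-1)
  rw [sn_neg_one h.pos (by linarith [h.lt]), show (-1 : ℤ) + 1 = 0 by norm_num, wt_zero] at this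
  linarith

lemma php_b2 (h : Par β) : php β (1 - 2 * β) = phm β (1 - 2 * β) + wt (-2) := by
  have := php_sub_phm h (-2)
  rw [sn_neg_two h.pos h.lt] at this
  linarith

lemma psp_b2 (h : Par β) : psp β (1 - 2 * β) = psm β (1 - 2 * β) := by
  have := psp_sub_psm h (-2)
  rw [sn_neg_two h.pos h.lt, show (-2 : ℤ) + 1 = -1 by norm_num, wt_neg_one] at this
  linarith

lemma php_beta (h : Par β) : php β β = phm β β + wt 1 := by
  have := php_sub_phm h 1
  rw [sn_one h.pos (by linarith [h.lt])] at this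
  linarith

lemma phm_add (h : Par β) {s : ℝ} (hs0 : 0 ≤ s) (hs1 : s ≤ 1 - β) :
    phm β (s + β) = phm β β + psm β s := by
  unfold phm psm
  rw [Sm_add h.pos (by linarith [h.lt]) wt_nonneg summable_wt hs0 hs1]
  ring

lemma php_add (h : Par β) {s : ℝ} (hs0 : 0 ≤ s) (hs1 : s < 1 - β) :
    php β (s + β) = phm β β + psp β s := by
  unfold php phm psp
  rw [Sp_add h.pos (by linarith [h.lt]) wt_nonneg summable_wt hs0 hs1]
  ring

lemma phm_sub (h : Par β) {s : ℝ} (hs0 : 1 - β ≤ s) (hs1 : s ≤ 1) :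
    phm β (s + β - 1) = psm β s - psm β (1 - β) := by
  unfold phm psm
  rw [Sm_sub h.pos (by linarith [h.lt]) wt_nonneg summable_wt hs0 hs1]
  ring

lemma php_sub (h : Par β) {s : ℝ} (hs0 : 1 - β ≤ s) (hs1 : s < 1) :
    php β (s + β - 1) = psp β s - psm β (1 - β) := by
  unfold php psm psp
  rw [Sp_sub h.pos (by linarith [h.lt]) wt_nonneg summable_wt hs0 hs1]
  ring

lemma phm_left (x : ℝ) : Tendsto (phm β) (𝓝[<] x) (𝓝 (phm β x)) := by
  have h1 := (tendsto_left (β := β) wt_nonneg summable_wt x).1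
  have h2 : Tendsto (fun y : ℝ => y / 4) (𝓝[<] x) (𝓝 (x / 4)) :=
    ((continuous_id.div_const 4).tendsto x).mono_left nhdsWithin_le_nhds
  exact h2.add h1

lemma php_left (x : ℝ) : Tendsto (php β) (𝓝[<] x) (𝓝 (phm β x)) := by
  have h1 := (tendsto_left (β := β) wt_nonneg summable_wt x).2
  have h2 : Tendsto (fun y : ℝ => y / 4) (𝓝[<] x) (𝓝 (x / 4)) :=
    ((continuous_id.div_const 4).tendsto x).mono_left nhdsWithin_le_nhds
  exact h2.add h1

lemma phm_right (x : ℝ) : Tendsto (phm β) (𝓝[>] x) (𝓝 (php β x)) := by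
  have h1 := (tendsto_right (β := β) wt_nonneg summable_wt x).1
  have h2 : Tendsto (fun y : ℝ => y / 4) (𝓝[>] x) (𝓝 (x / 4)) :=
    ((continuous_id.div_const 4).tendsto x).mono_left nhdsWithin_le_nhds
  exact h2.add h1

lemma php_right (x : ℝ) : Tendsto (php β) (𝓝[>] x) (𝓝 (php β x)) := by
  have h1 := (tendsto_right (β := β) wt_nonneg summable_wt x).2
  have h2 : Tendsto (fun y : ℝ => y / 4) (𝓝[>] x) (𝓝 (x / 4)) :=
    ((continuous_id.div_const 4).tendsto x).mono_left nhdsWithin_le_nhds
  exact h2.add h1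

/-- every point of `[0,1/2]` lies over a point of the circle -/
lemma exists_base_point (t : ℝ) (ht0 : 0 ≤ t) (ht1 : t ≤ 1 / 2) :
    ∃ s, 0 ≤ s ∧ s ≤ 1 ∧ phm β s ≤ t ∧ t ≤ php β s := by
  set A : Set ℝ := {s | 0 ≤ s ∧ s ≤ 1 ∧ phm β s ≤ t} with hA
  have h0A : (0 : ℝ) ∈ A := ⟨le_rfl, zero_le_one, by rw [phm_zero]; exact ht0⟩
  have hbdd : BddAbove A := ⟨1, fun s hs => hs.2.1⟩
  set s := sSup A with hs
  have hs0 : 0 ≤ s := le_csSup hbdd h0A
  have hs1 : s ≤ 1 := csSup_le ⟨0, h0A⟩ fun s hs => hs.2.1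
  have hlow : ∀ y, y < s → phm β y ≤ t := by
    intro y hy
    obtain ⟨z, hz, hyz⟩ := exists_lt_of_lt_csSup ⟨0, h0A⟩ hy
    exact (phm_mono hyz.le).trans hz.2.2
  refine ⟨s, hs0, hs1, ?_, ?_⟩
  · refine le_of_tendsto (phm_left s) ?_
    filter_upwards [self_mem_nhdsWithin] with y hy
    exact hlow y hy
  · rcases hs1.eq_or_lt with h1 | h1
    · rw [h1, php_one]
      exact ht1
    · refine ge_of_tendsto (phm_right s) ?_
      filter_upwards [self_mem_nhdsWithin, mem_nhdsWithin_of_mem_nhds (Iio_mem_nhds h1)]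
        with y hy hy1
      by_contra hlt
      have hyA : y ∈ A := ⟨hs0.trans (le_of_lt hy), le_of_lt hy1, (not_le.1 hlt).le⟩
      exact absurd (le_csSup hbdd hyA) (not_le.2 hy)

/-- clamped position inside the `n`-th gap -/
noncomputable def Ln (β : ℝ) (n : ℤ) (t : ℝ) : ℝ := max 0 (min (wt n) (t - phm β (sn β n)))

lemma Ln_nonneg (n : ℤ) (t : ℝ) : 0 ≤ Ln β n t := le_max_left _ _

lemma Ln_le (n : ℤ) (t : ℝ) : Ln β n t ≤ wt n := max_le (wt_nonneg n) (min_le_left _ _)

lemma continuous_Ln (n : ℤ) : Continuous (Ln β n) := by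
  unfold Ln
  fun_prop

lemma summable_Ln (t : ℝ) : Summable (fun n => Ln β n t) :=
  Summable.of_nonneg_of_le (fun n => Ln_nonneg n t) (fun n => Ln_le n t) summable_wt

lemma ratio_mul_le (n : ℤ) {x : ℝ} (h0 : 0 ≤ x) (h1 : x ≤ wt n) :
    wt (n + 1) / wt n * x ≤ wt (n + 1) := by
  rcases (wt_nonneg n).eq_or_lt with h | h
  · rw [← h, div_zero, zero_mul]
    exact wt_nonneg _
  · rw [div_mul_eq_mul_div, div_le_iff₀ h]
    exact mul_le_mul_of_nonneg_left h1 (wt_nonneg _)

lemma ratio_nonneg (n : ℤ) : 0 ≤ wt (n + 1) / wt n := div_nonneg (wt_nonneg _) (wt_nonneg _)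

lemma summable_rLn (t : ℝ) : Summable (fun n => wt (n + 1) / wt n * Ln β n t) :=
  Summable.of_nonneg_of_le (fun n => mul_nonneg (ratio_nonneg n) (Ln_nonneg n t))
    (fun n => ratio_mul_le n (Ln_nonneg n t) (Ln_le n t)) summable_wt_succ

/-- the blown-up rotation -/
noncomputable def G (β t : ℝ) : ℝ :=
  t - ∑' n, Ln β n t + wt 1 + ∑' n, wt (n + 1) / wt n * Ln β n t

lemma continuous_G : Continuous (G β) := by
  have h1 : Continuous (fun t => ∑' n, Ln β n t) := by
    refine continuous_tsum (fun n => continuous_Ln n) summable_wt (fun n t => ?_)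
    rw [Real.norm_eq_abs, abs_of_nonneg (Ln_nonneg n t)]
    exact Ln_le n t
  have h2 : Continuous (fun t => ∑' n, wt (n + 1) / wt n * Ln β n t) := by
    refine continuous_tsum (fun n => (continuous_Ln n).const_mul _) summable_wt_succ
      (fun n t => ?_)
    rw [Real.norm_eq_abs, abs_of_nonneg (mul_nonneg (ratio_nonneg n) (Ln_nonneg n t))]
    exact ratio_mul_le n (Ln_nonneg n t) (Ln_le n t)
  unfold G
  exact ((continuous_id.sub h1).add continuous_const).add h2

lemma Ln_of_lt (h : Par β) {s t : ℝ} (ht0 : phm β s ≤ t) {n : ℤ}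
    (hn : sn β n < s) : Ln β n t = wt n := by
  have h1 := php_sub_phm h n
  have h2 := php_lt_phm (β := β) _ _ hn
  unfold Ln
  rw [min_eq_left (by linarith), max_eq_right (wt_nonneg n)]

lemma Ln_of_gt {s t : ℝ} (ht1 : t ≤ php β s) {n : ℤ}
    (hn : s < sn β n) : Ln β n t = 0 := by
  have h2 := php_lt_phm (β := β) _ _ hn
  unfold Ln
  rw [max_eq_left]
  exact (min_le_right _ _).trans (by linarith)

lemma Ln_of_eq (h : Par β) {t : ℝ} {n : ℤ} (ht0 : phm β (sn β n) ≤ t) (ht1 : t ≤ php β (sn β n)) :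
    Ln β n t = t - phm β (sn β n) := by
  have h1 := php_sub_phm h n
  unfold Ln
  rw [min_eq_right (by linarith), max_eq_right (by linarith)]

open Classical in
lemma tsum_Ln (h : Par β) {s t : ℝ} (ht0 : phm β s ≤ t) (ht1 : t ≤ php β s) :
    ∑' n, Ln β n t = t - s / 4 := by
  have hsum := summable_Ln (β := β) t
  have hdec : ∀ n, Ln β n t = (if sn β n < s then wt n else 0) +
      (if sn β n = s then t - phm β s else 0) := by
    intro n
    rcases lt_trichotomy (sn β n) s with hlt | heq | hgt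
    · rw [Ln_of_lt h ht0 hlt, if_pos hlt, if_neg hlt.ne, add_zero]
    · subst heq
      rw [Ln_of_eq h ht0 ht1, if_neg (lt_irrefl _), if_pos rfl, zero_add]
    · rw [Ln_of_gt ht1 hgt, if_neg hgt.not_gt, if_neg hgt.ne', add_zero]
  by_cases hex : ∃ m, sn β m = s
  · obtain ⟨m, rfl⟩ := hex
    have hdec2 : ∀ n, (if sn β n = sn β m then t - phm β (sn β m) else 0) =
        if n = m then t - phm β (sn β m) else 0 := by
      intro n
      by_cases hnm : n = m
      · subst hnm; simp
      · rw [if_neg hnm, if_neg fun h' => hnm (sn_inj h.irr h')]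
    have h1 := summable_ite wt_nonneg summable_wt (fun n => sn β n < sn β m)
    simp_rw [hdec, hdec2]
    rw [h1.tsum_add (summable_of_hasFiniteSupport (by
      refine (Set.finite_singleton m).subset fun n hn => ?_
      by_contra hne
      exact hn (if_neg hne))), tsum_ite_eq]
    unfold phm Sm
    ring
  · have hne : ∀ m, sn β m ≠ s := fun m hm => hex ⟨m, hm⟩
    have h2 : php β s = phm β s := by
      unfold php phm
      rw [Sp_eq_Sm s hne]
    have h3 : t = phm β s := le_antisymm (h2 ▸ ht1) ht0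
    simp_rw [hdec, if_neg (hne _), add_zero]
    rw [h3]
    unfold phm Sm
    ring

/-- slope of `G` over the point `s` -/
noncomputable def slope (β s : ℝ) : ℝ :=
  open Classical in if hex : ∃ m, sn β m = s then wt (hex.choose + 1) / wt hex.choose else 0

lemma slope_sn (h : Par β) (m : ℤ) : slope β (sn β m) = wt (m + 1) / wt m := by
  have hex : ∃ k, sn β k = sn β m := ⟨m, rfl⟩
  unfold slope
  rw [dif_pos hex]
  have : hex.choose = m := sn_inj h.irr hex.choose_spec
  rw [this]

open Classical in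
lemma tsum_rLn (h : Par β) {s t : ℝ} (hs : 0 < s) (ht0 : phm β s ≤ t) (ht1 : t ≤ php β s) :
    wt 1 + ∑' n, wt (n + 1) / wt n * Ln β n t = Sm β (fun n => wt (n + 1)) s +
      slope β s * (t - phm β s) := by
  have hr : ∀ n : ℤ, wt (n + 1) / wt n * wt n = if n = 0 then 0 else wt (n + 1) := by
    intro n
    rcases eq_or_ne n 0 with rfl | h0
    · rw [wt_zero]; simp
    · rw [if_neg h0]
      rcases eq_or_ne n (-1) with rfl | h1
      · rw [wt_neg_one, mul_zero]
        norm_num [wt_zero]
      · exact div_mul_cancel₀ _ (wt_pos h0 h1).ne'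
  have hdec : ∀ n, wt (n + 1) / wt n * Ln β n t = (if sn β n < s then wt (n + 1) else 0) -
      (if n = 0 then wt 1 else 0) +
      (if sn β n = s then wt (n + 1) / wt n * (t - phm β s) else 0) := by
    intro n
    rcases lt_trichotomy (sn β n) s with hlt | heq | hgt
    · rw [Ln_of_lt h ht0 hlt, if_pos hlt, if_neg hlt.ne, add_zero, hr]
      rcases eq_or_ne n 0 with rfl | h0
      · simp
      · rw [if_neg h0, if_neg h0, sub_zero]
    · have hn0 : n ≠ 0 := by
        rintro rfl
        rw [sn_zero] at heq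
        exact hs.ne heq
      subst heq
      rw [Ln_of_eq h ht0 ht1, if_neg (lt_irrefl _), if_pos rfl, if_neg hn0, sub_zero, zero_add]
    · have hn0 : n ≠ 0 := by
        rintro rfl
        rw [sn_zero] at hgt
        exact absurd (hgt.trans hs) (lt_irrefl _)
      rw [Ln_of_gt ht1 hgt, if_neg hgt.not_gt, if_neg hgt.ne', if_neg hn0, mul_zero, sub_zero,
        add_zero]
  have hA := summable_ite wts_nonneg summable_wt_succ (fun n => sn β n < s)
  have hB : Summable (fun n : ℤ => if n = 0 then wt 1 else 0) :=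
    summable_of_hasFiniteSupport (by
      refine (Set.finite_singleton (0 : ℤ)).subset fun n hn => ?_
      by_contra hne
      exact hn (if_neg hne))
  by_cases hex : ∃ m, sn β m = s
  · obtain ⟨m, rfl⟩ := hex
    rw [slope_sn h]
    have hdec2 : ∀ n, (if sn β n = sn β m then wt (n + 1) / wt n * (t - phm β (sn β m)) else 0) =
        if n = m then wt (m + 1) / wt m * (t - phm β (sn β m)) else 0 := by
      intro n
      by_cases hnm : n = m
      · subst hnm; simp
      · rw [if_neg hnm, if_neg fun h' => hnm (sn_inj h.irr h')]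
    simp_rw [hdec, hdec2]
    rw [(hA.sub hB).tsum_add (summable_of_hasFiniteSupport (by
      refine (Set.finite_singleton m).subset fun n hn => ?_
      by_contra hne
      exact hn (if_neg hne))), hA.tsum_sub hB, tsum_ite_eq, tsum_ite_eq]
    unfold Sm
    ring
  · have hne : ∀ m, sn β m ≠ s := fun m hm => hex ⟨m, hm⟩
    simp_rw [hdec, if_neg (hne _), add_zero]
    rw [hA.tsum_sub hB, tsum_ite_eq]
    unfold slope Sm
    rw [dif_neg hex]
    ring

lemma G_val (h : Par β) {s t : ℝ} (hs : 0 < s) (ht0 : phm β s ≤ t) (ht1 : t ≤ php β s) :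
    G β t = psm β s + slope β s * (t - phm β s) := by
  unfold G
  rw [add_assoc, tsum_rLn h hs ht0 ht1, tsum_Ln h ht0 ht1]
  unfold psm
  ring

lemma G_zero (h : Par β) : G β 0 = wt 1 := by
  have h1 : ∀ n, Ln β n 0 = 0 := by
    intro n
    unfold Ln
    rw [max_eq_left]
    refine (min_le_right _ _).trans ?_
    have : phm β 0 ≤ phm β (sn β n) := phm_mono (sn_nonneg β n)
    rw [phm_zero] at this
    linarith
  unfold G
  simp [h1]

lemma slope_nonneg (s : ℝ) : 0 ≤ slope β s := by
  unfold slope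
  split_ifs with hex
  · exact ratio_nonneg _
  · exact le_rfl

lemma slope_mul (h : Par β) {s : ℝ} (hs : 0 < s) :
    slope β s * (php β s - phm β s) = psp β s - psm β s := by
  by_cases hex : ∃ m, sn β m = s
  · obtain ⟨m, rfl⟩ := hex
    rw [slope_sn h, php_sub_phm h, psp_sub_psm h]
    have hm0 : m ≠ 0 := by
      rintro rfl
      rw [sn_zero] at hs
      exact lt_irrefl _ hs
    rcases eq_or_ne m (-1) with rfl | h1
    · rw [wt_neg_one, mul_zero]
      norm_num [wt_zero]
    · exact div_mul_cancel₀ _ (wt_pos hm0 h1).ne'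
  · have hne : ∀ m, sn β m ≠ s := fun m hm => hex ⟨m, hm⟩
    have h2 : php β s = phm β s := by
      unfold php phm
      rw [Sp_eq_Sm s hne]
    have h3 : psp β s = psm β s := by
      unfold psp psm
      rw [Sp_eq_Sm s hne]
    rw [h2, h3]
    simp

lemma slope_pos (h : Par β) {s : ℝ} (hs : 0 < s) (hlt : phm β s < php β s)
    (hne : s ≠ 1 - 2 * β) : 0 < slope β s := by
  by_cases hex : ∃ m, sn β m = s
  · obtain ⟨m, rfl⟩ := hex
    have h1 := php_sub_phm h m
    have hm0 : m ≠ 0 := by
      rintro rfl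
      rw [sn_zero] at hs
      exact lt_irrefl _ hs
    have hm1 : m ≠ -1 := by
      rintro rfl
      rw [wt_neg_one] at h1
      linarith
    have hm2 : m ≠ -2 := by
      rintro rfl
      exact hne (sn_neg_two h.pos h.lt)
    rw [slope_sn h]
    exact div_pos (wt_pos (by omega) (by omega)) (wt_pos hm0 hm1)
  · exfalso
    have hne : ∀ m, sn β m ≠ s := fun m hm => hex ⟨m, hm⟩
    have h2 : php β s = phm β s := by
      unfold php phm
      rw [Sp_eq_Sm s hne]
    linarith

lemma G_phm (h : Par β) {s : ℝ} (hs : 0 < s) : G β (phm β s) = psm β s := by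
  rw [G_val h hs le_rfl (phm_le_php s)]
  simp

lemma G_php (h : Par β) {s : ℝ} (hs : 0 ≤ s) : G β (php β s) = psp β s := by
  rcases hs.eq_or_lt with rfl | hs
  · rw [php_zero h, G_zero h, psp_zero h]
  · rw [G_val h hs (phm_le_php s) le_rfl, slope_mul h hs]
    ring

lemma G_bounds (h : Par β) {s t : ℝ} (hs : 0 ≤ s) (ht0 : phm β s ≤ t) (ht1 : t ≤ php β s) :
    psm β s ≤ G β t ∧ G β t ≤ psp β s := by
  rcases hs.eq_or_lt with rfl | hs
  · rw [phm_zero] at ht0
    rw [php_zero h] at ht1
    have : t = 0 := le_antisymm ht1 ht0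
    rw [this, G_zero h, psm_zero, psp_zero h]
    exact ⟨wt_nonneg _, le_rfl⟩
  · rw [G_val h hs ht0 ht1]
    have h1 := slope_nonneg (β := β) s
    have h2 := slope_mul h hs
    constructor
    · have := mul_nonneg h1 (sub_nonneg.2 ht0)
      linarith
    · have := mul_le_mul_of_nonneg_left (sub_le_sub_right ht1 (phm β s)) h1
      linarith

/-- `G` is strictly increasing off the turning gap. -/
lemma G_lt (h : Par β) {t t' : ℝ} (ht0 : 0 ≤ t) (htt : t < t') (ht1 : t' ≤ 1 / 2)
    (hgap : t' ≤ phm β (1 - 2 * β) ∨ php β (1 - 2 * β) ≤ t) : G β t < G β t' := by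
  obtain ⟨s, hs0, hs1, hs2, hs3⟩ := exists_base_point (β := β) t ht0 (htt.le.trans ht1)
  obtain ⟨s', hs0', hs1', hs2', hs3'⟩ := exists_base_point (β := β) t' (ht0.trans htt.le) ht1
  rcases lt_trichotomy s s' with hlt | heq | hgt
  · have h1 := (G_bounds h hs0 hs2 hs3).2
    have h2 := (G_bounds h hs0' hs2' hs3').1
    have h3 := psp_lt_psm (β := β) _ _ hlt
    linarith
  · subst heq
    have hspos : 0 < s := by
      rcases hs0.eq_or_lt with h0 | h0
      · exfalso
        rw [← h0, php_zero h] at hs3'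
        linarith
      · exact h0
    rw [G_val h hspos hs2 hs3, G_val h hspos hs2' hs3']
    have hne : s ≠ 1 - 2 * β := by
      rintro rfl
      rcases hgap with hg | hg <;> linarith
    have h1 := slope_pos h hspos (lt_of_le_of_lt hs2 (lt_of_lt_of_le htt hs3')) hne
    have := mul_lt_mul_of_pos_left (sub_lt_sub_right htt (phm β s)) h1
    linarith
  · exfalso
    have := php_lt_phm (β := β) _ _ hgt
    linarith

end

end Pool.Agent.W_MP_23b248_an
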