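import Mathlib
import Pool.Agent.W_MP_23b248_an.Gfun

set_option autoImplicit false

/-!
The explicit unimodal map with a wandering interval: definition, continuity, monotonicity.
-/

namespace Pool.Agent.W_MP_23b248_an

open Filter Topology

/-- right end of the left part -/
noncomputable def pA (β : ℝ) : ℝ := phm β (1 - β)
/-- left end of the turning gap -/
noncomputable def pE (β : ℝ) : ℝ := phm β (1 - 2 * β)
/-- right end of the turning gap: the turning point -/
noncomputable def pC (β : ℝ) : ℝ := php β (1 - 2 * β)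

noncomputable def F (β u : ℝ) : ℝ :=
  if u ≤ pE β then phm β β + G β u
  else if u ≤ pC β then pA β + (u - pE β) / (pC β - pE β) * (1 - pA β)
  else if u ≤ pA β then 1 - (G β u - psp β (1 - 2 * β))
  else if u ≤ pA β + 1 / 2 then
    (pA β + 1 / 2) + (u - pA β) / (1 / 2) * (phm β β - (pA β + 1 / 2))
  else G β (1 + pA β - u) - psm β (1 - β)

section

variable {β : ℝ}

lemma pE_pos (h : Par β) : 0 < pE β := by
  have := php_lt_phm (β := β) 0 (1 - 2 * β) (by linarith [h.lt])
  rw [php_zero h] at this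
  exact this

lemma pE_lt_pC (h : Par β) : pE β < pC β := by
  unfold pE pC
  rw [php_b2 h]
  have := wt_pos (n := -2) (by norm_num) (by norm_num)
  linarith

lemma pC_lt_pA (h : Par β) : pC β < pA β :=
  php_lt_phm _ _ (by linarith [h.pos])

lemma pA_eq (h : Par β) : pA β = php β (1 - β) := (php_b1 h).symm

lemma pA_lt (h : Par β) : pA β < 1 / 2 := by
  rw [pA_eq h]
  have := php_lt_phm (β := β) (1 - β) 1 (by linarith [h.pos])
  rwa [phm_one] at this

lemma phm_beta_pos (h : Par β) : 0 < phm β β := by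
  have := php_lt_phm (β := β) 0 β h.pos
  rwa [php_zero h] at this

lemma psm_b2 (h : Par β) : psm β (1 - 2 * β) = pA β - phm β β := by
  have := phm_add h (s := 1 - 2 * β) (by linarith [h.lt]) (by linarith [h.pos])
  rw [show 1 - 2 * β + β = 1 - β by ring] at this
  unfold pA
  linarith

lemma psm_b1 (h : Par β) : psm β (1 - β) = 1 / 2 - phm β β := by
  have := phm_add h (s := 1 - β) (by linarith [h.lt]) le_rfl
  rw [show 1 - β + β = 1 by ring, phm_one] at this
  linarith

lemma psm_one (h : Par β) : psm β 1 = 1 / 2 := by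
  have := phm_sub h (s := 1) (by linarith [h.pos]) le_rfl
  rw [show 1 + β - 1 = β by ring, psm_b1 h] at this
  linarith

lemma G_E (h : Par β) : G β (pE β) = pA β - phm β β := by
  unfold pE
  rw [G_phm h (by linarith [h.lt]), psm_b2 h]

lemma G_C (h : Par β) : G β (pC β) = pA β - phm β β := by
  unfold pC
  rw [G_php h (by linarith [h.lt]), psp_b2 h, psm_b2 h]

lemma G_A (h : Par β) : G β (pA β) = 1 / 2 - phm β β := by
  unfold pA
  rw [G_phm h (by linarith [h.lt]), psm_b1 h]

lemma G_half (h : Par β) : G β (1 / 2) = 1 / 2 := by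
  rw [← phm_one (β := β), G_phm h (by norm_num), psm_one h, phm_one]

lemma phm_beta_lt (h : Par β) : phm β β < pA β := 
  phm_lt_phm (by linarith [h.lt])

lemma phm_beta_lt_half (h : Par β) : phm β β < 1 / 2 := 
  (phm_beta_lt h).trans (pA_lt h)

/-! piecewise values -/

lemma F_of_le_E {u : ℝ} (hu : u ≤ pE β) : F β u = phm β β + G β u := by
  unfold F
  rw [if_pos hu]

lemma F_of_le_C (h : Par β) {u : ℝ} (hu0 : pE β ≤ u) (hu : u ≤ pC β) :
    F β u = pA β + (u - pE β) / (pC β - pE β) * (1 - pA β) := by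
  rcases hu0.eq_or_lt with rfl | hu0
  · rw [F_of_le_E le_rfl, G_E h]
    simp
  · unfold F
    rw [if_neg (not_le.2 hu0), if_pos hu]

lemma F_of_le_A (h : Par β) {u : ℝ} (hu0 : pC β ≤ u) (hu : u ≤ pA β) :
    F β u = 1 - (G β u - psp β (1 - 2 * β)) := by
  have hEC := pE_lt_pC h
  rcases hu0.eq_or_lt with rfl | hu0
  · rw [F_of_le_C h hEC.le le_rfl, G_C h, psp_b2 h, psm_b2 h, div_self (by linarith)]
    ring
  · unfold F
    rw [if_neg (not_le.2 (hEC.trans hu0)), if_neg (not_le.2 hu0), if_pos hu]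

lemma F_of_le_mid (h : Par β) {u : ℝ} (hu0 : pA β ≤ u) (hu : u ≤ pA β + 1 / 2) :
    F β u = (pA β + 1 / 2) + (u - pA β) / (1 / 2) * (phm β β - (pA β + 1 / 2)) := by
  have hEC := pE_lt_pC h
  have hCA := pC_lt_pA h
  rcases hu0.eq_or_lt with rfl | hu0
  · rw [F_of_le_A h hCA.le le_rfl, G_A h, psp_b2 h, psm_b2 h]
    ring
  · unfold F
    rw [if_neg (not_le.2 ((hEC.trans hCA).trans hu0)), if_neg (not_le.2 (hCA.trans hu0)),
      if_neg (not_le.2 hu0), if_pos hu]

lemma F_of_ge (h : Par β) {u : ℝ} (hu0 : pA β + 1 / 2 ≤ u) :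
    F β u = G β (1 + pA β - u) - psm β (1 - β) := by
  have hEC := pE_lt_pC h
  have hCA := pC_lt_pA h
  rcases hu0.eq_or_lt with rfl | hu0
  · rw [F_of_le_mid h (by linarith) le_rfl,
      show 1 + pA β - (pA β + 1 / 2) = 1 / 2 by ring, G_half h, psm_b1 h]
    ring
  · unfold F
    rw [if_neg (by linarith), if_neg (by linarith), if_neg (by linarith), if_neg (by linarith)]

lemma F_zero (h : Par β) : F β 0 = php β β := by
  rw [F_of_le_E (pE_pos h).le, G_zero h, php_beta h]

lemma F_E (h : Par β) : F β (pE β) = pA β := by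
  rw [F_of_le_E le_rfl, G_E h]
  ring

lemma F_C (h : Par β) : F β (pC β) = 1 := by
  rw [F_of_le_A h le_rfl (pC_lt_pA h).le, G_C h, psp_b2 h, psm_b2 h]
  ring

lemma F_A (h : Par β) : F β (pA β) = pA β + 1 / 2 := by
  rw [F_of_le_A h (pC_lt_pA h).le le_rfl, G_A h, psp_b2 h, psm_b2 h]
  ring

lemma F_mid (h : Par β) : F β (pA β + 1 / 2) = phm β β := by
  rw [F_of_ge h le_rfl, show 1 + pA β - (pA β + 1 / 2) = 1 / 2 by ring, G_half h, psm_b1 h]
  ring

lemma F_one (h : Par β) : F β 1 = 0 := by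
  rw [F_of_ge h (by linarith [pA_lt h]), show 1 + pA β - 1 = pA β by ring, G_A h, psm_b1 h]
  ring

lemma continuous_F (h : Par β) : Continuous (F β) := by
  have hEC := pE_lt_pC h
  have hCA := pC_lt_pA h
  have hG := continuous_G (β := β)
  unfold F
  refine Continuous.if_le (by fun_prop) (Continuous.if_le (by fun_prop) (Continuous.if_le
    (by fun_prop) (Continuous.if_le (by fun_prop) (by fun_prop) continuous_id continuous_const ?_)
    continuous_id continuous_const ?_) continuous_id continuous_const ?_) continuous_id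
    continuous_const ?_
  · intro x hx
    rw [hx, show 1 + pA β - (pA β + 1 / 2) = 1 / 2 by ring, G_half h, psm_b1 h]
    ring
  · intro x hx
    rw [hx, if_pos (by linarith), G_A h, psp_b2 h, psm_b2 h]
    ring
  · intro x hx
    rw [hx, if_pos hCA.le, G_C h, psp_b2 h, psm_b2 h, div_self (by linarith)]
    ring
  · intro x hx
    rw [hx, if_pos hEC.le, G_E h]
    simp

lemma strictMonoOn_F (h : Par β) : StrictMonoOn (F β) (Set.Icc 0 (pC β)) := by
  have hE := pE_pos h
  have hEC := pE_lt_pC h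
  have hCA := pC_lt_pA h
  have hA := pA_lt h
  have h1 : StrictMonoOn (F β) (Set.Icc 0 (pE β)) := by
    intro x hx y hy hxy
    rw [F_of_le_E hx.2, F_of_le_E hy.2]
    have := G_lt h hx.1 hxy (by linarith [hy.2]) (Or.inl hy.2)
    linarith
  have h2 : StrictMonoOn (F β) (Set.Icc (pE β) (pC β)) := by
    intro x hx y hy hxy
    rw [F_of_le_C h hx.1 hx.2, F_of_le_C h hy.1 hy.2]
    have h3 : (x - pE β) / (pC β - pE β) < (y - pE β) / (pC β - pE β) :=
      div_lt_div_of_pos_right (by linarith) (by linarith)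
    have := mul_lt_mul_of_pos_right h3 (show 0 < 1 - pA β by linarith)
    linarith
  have h3 := h1.union h2 (isGreatest_Icc hE.le) (isLeast_Icc hEC.le)
  rwa [Set.Icc_union_Icc_eq_Icc hE.le hEC.le] at h3

lemma strictAntiOn_F (h : Par β) : StrictAntiOn (F β) (Set.Icc (pC β) 1) := by
  have hE := pE_pos h
  have hEC := pE_lt_pC h
  have hCA := pC_lt_pA h
  have hA := pA_lt h
  have h1 : StrictAntiOn (F β) (Set.Icc (pC β) (pA β)) := by
    intro x hx y hy hxy
    rw [F_of_le_A h hx.1 hx.2, F_of_le_A h hy.1 hy.2]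
    have := G_lt h (by linarith [hx.1]) hxy (by linarith [hy.2]) (Or.inr hx.1)
    linarith
  have h2 : StrictAntiOn (F β) (Set.Icc (pA β) (pA β + 1 / 2)) := by
    intro x hx y hy hxy
    rw [F_of_le_mid h hx.1 hx.2, F_of_le_mid h hy.1 hy.2]
    have h3 : (x - pA β) / (1 / 2) < (y - pA β) / (1 / 2) :=
      div_lt_div_of_pos_right (by linarith) (by norm_num)
    have h4 := phm_beta_lt h
    have := mul_lt_mul_of_neg_right h3 (show phm β β - (pA β + 1 / 2) < 0 by linarith)
    linarith
  have h3 : StrictAntiOn (F β) (Set.Icc (pA β + 1 / 2) 1) := by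
    intro x hx y hy hxy
    rw [F_of_ge h hx.1, F_of_ge h hy.1]
    have := G_lt h (t := 1 + pA β - y) (t' := 1 + pA β - x) (by linarith [hy.2]) (by linarith)
      (by linarith [hx.1]) (Or.inr (by
        have : pC β ≤ 1 + pA β - y := by linarith [hy.2]
        exact this))
    linarith
  have h4 := h1.union h2 (isGreatest_Icc hCA.le) (isLeast_Icc (by linarith))
  rw [Set.Icc_union_Icc_eq_Icc hCA.le (by linarith)] at h4
  have h5 := h4.union h3 (isGreatest_Icc (by linarith)) (isLeast_Icc (by linarith))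
  rwa [Set.Icc_union_Icc_eq_Icc (by linarith) (by linarith)] at h5

lemma F_mem (h : Par β) {u : ℝ} (hu : u ∈ Set.Icc (0 : ℝ) 1) : F β u ∈ Set.Icc (0 : ℝ) 1 := by
  have hE := pE_pos h
  have hEC := pE_lt_pC h
  have hCA := pC_lt_pA h
  have hA := pA_lt h
  rcases le_total u (pC β) with h1 | h1
  · have m := (strictMonoOn_F h).monotoneOn
    constructor
    · have h2 := m ⟨le_rfl, (hE.trans hEC).le⟩ ⟨hu.1, h1⟩ hu.1
      rw [F_zero h] at h2
      have := phm_beta_pos h
      have := phm_le_php (β := β) β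
      linarith
    · have h2 := m ⟨hu.1, h1⟩ ⟨(hE.trans hEC).le, le_rfl⟩ h1
      rwa [F_C h] at h2
  · have m := (strictAntiOn_F h).antitoneOn
    constructor
    · have h2 := m ⟨h1, hu.2⟩ ⟨by linarith, le_rfl⟩ hu.2
      rwa [F_one h] at h2
    · have h2 := m ⟨le_rfl, by linarith⟩ ⟨h1, hu.2⟩ h1
      rwa [F_C h] at h2

/-! positions -/

/-- position of the right copy of `s ∈ [0,1)` -/
noncomputable def Pp (β s : ℝ) : ℝ := if s < 1 - β then php β s else 1 + pA β - php β s

/-- position of the left copy of `s ∈ (0,1]` -/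
noncomputable def Pm (β s : ℝ) : ℝ := if s ≤ 1 - β then phm β s else 1 + pA β - phm β s

lemma F_Pp_lt (h : Par β) {s : ℝ} (hs0 : 0 ≤ s) (hs1 : s < 1 - β) :
    F β (Pp β s) = Pp β (s + β) := by
  have hpos := h.pos
  rcases lt_or_ge s (1 - 2 * β) with h1 | h1
  · unfold Pp
    rw [if_pos hs1, if_pos (by linarith), F_of_le_E, G_php h hs0, php_add h hs0 hs1]
    exact (php_lt_phm _ _ h1).le
  · unfold Pp
    rw [if_pos hs1, if_neg (by linarith), F_of_le_A h (php_mono h1) (php_lt_phm _ _ hs1).le,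
      G_php h hs0, php_add h hs0 hs1, psp_b2 h, psm_b2 h]
    ring

lemma F_Pp_ge (h : Par β) {s : ℝ} (hs0 : 1 - β ≤ s) (hs1 : s < 1) :
    F β (Pp β s) = Pp β (s + β - 1) := by
  have hpos := h.pos
  have hlt := h.lt
  have h2 : php β s ≤ 1 / 2 := by
    have := php_mono (β := β) hs1.le
    rwa [php_one] at this
  unfold Pp
  rw [if_neg (by linarith), if_pos (by linarith), F_of_ge h (by linarith),
    show 1 + pA β - (1 + pA β - php β s) = php β s by ring, G_php h (by linarith),
    php_sub h hs0 hs1]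

lemma F_Pm_le (h : Par β) {s : ℝ} (hs0 : 0 < s) (hs1 : s ≤ 1 - β) :
    F β (Pm β s) = Pm β (s + β) := by
  have hpos := h.pos
  rcases le_or_gt s (1 - 2 * β) with h1 | h1
  · unfold Pm
    rw [if_pos hs1, if_pos (by linarith), F_of_le_E, G_phm h hs0, phm_add h hs0.le hs1]
    exact phm_mono h1
  · unfold Pm
    rw [if_pos hs1, if_neg (by linarith), F_of_le_A h (php_lt_phm _ _ h1).le (phm_mono hs1),
      G_phm h hs0, phm_add h hs0.le hs1, psp_b2 h, psm_b2 h]
    ring

lemma F_Pm_gt (h : Par β) {s : ℝ} (hs0 : 1 - β < s) (hs1 : s ≤ 1) :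
    F β (Pm β s) = Pm β (s + β - 1) := by
  have hpos := h.pos
  have hlt := h.lt
  have h2 : phm β s ≤ 1 / 2 := by
    have := phm_mono (β := β) hs1
    rwa [phm_one] at this
  unfold Pm
  rw [if_neg (by linarith), if_pos (by linarith), F_of_ge h (by linarith),
    show 1 + pA β - (1 + pA β - phm β s) = phm β s by ring, G_phm h (by linarith),
    phm_sub h hs0.le hs1]

end

end Pool.Agent.W_MP_23b248_an
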