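import Mathlib
import Pool.Agent.W_MP_23b248_an.Fmap

set_option autoImplicit false

/-!
Orbits of the explicit map on the minimal Cantor set.
-/

namespace Pool.Agent.W_MP_23b248_an

open Filter Topology

section

variable {β : ℝ}

/-- position of the copy on side `b` of the point `θ` of the circle -/
noncomputable def pos (β : ℝ) (b : Bool) (θ : ℝ) : ℝ :=
  if b = true then Pp β (Int.fract θ) else Pm β (1 - Int.fract (-θ))

lemma F_pos (h : Par β) (b : Bool) (θ : ℝ) : F β (pos β b θ) = pos β b (θ + β) := by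
  have hpos := h.pos
  have hlt := h.lt
  rcases b with _ | _
  · simp only [pos, Bool.false_eq_true, if_false]
    have h0 := Int.fract_nonneg (-θ)
    have h1 := Int.fract_lt_one (-θ)
    have h2 : -θ = Int.fract (-θ) + ⌊-θ⌋ := (Int.fract_add_floor _).symm
    rcases le_or_gt (1 - Int.fract (-θ)) (1 - β) with h3 | h3
    · rw [F_Pm_le h (by linarith) h3]
      have h4 : Int.fract (-(θ + β)) = Int.fract (-θ) - β :=
        fract_eq_of_int (⌊-θ⌋) (by linarith) (by linarith) (by linarith)
      rw [h4]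
      congr 1
      ring
    · rw [F_Pm_gt h h3 (by linarith)]
      have h4 : Int.fract (-(θ + β)) = Int.fract (-θ) - β + 1 :=
        fract_eq_of_int (⌊-θ⌋ - 1) (by push_cast; linarith) (by linarith) (by linarith)
      rw [h4]
      congr 1
      ring
  · simp only [pos, if_true]
    have h0 := Int.fract_nonneg θ
    have h1 := Int.fract_lt_one θ
    have h2 : θ = Int.fract θ + ⌊θ⌋ := (Int.fract_add_floor _).symm
    rcases lt_or_ge (Int.fract θ) (1 - β) with h3 | h3
    · rw [F_Pp_lt h h0 h3]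
      have h4 : Int.fract (θ + β) = Int.fract θ + β :=
        fract_eq_of_int (⌊θ⌋) (by linarith) (by linarith) (by linarith)
      rw [h4]
    · rw [F_Pp_ge h h3 h1]
      have h4 : Int.fract (θ + β) = Int.fract θ + β - 1 :=
        fract_eq_of_int (⌊θ⌋ + 1) (by push_cast; linarith) (by linarith) (by linarith)
      rw [h4]

lemma F_iter_pos (h : Par β) (b : Bool) (θ : ℝ) (n : ℕ) :
    (F β)^[n] (pos β b θ) = pos β b (θ + n * β) := by
  induction n with
  | zero => simp
  | succ n ih =>
    rw [Function.iterate_succ_apply', ih, F_pos h]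
    congr 1
    push_cast
    ring

/-- the Cantor set -/
def KK (β : ℝ) : Set ℝ := {u | ∃ b θ, u = pos β b θ}

lemma Pp_mem_KK {s : ℝ} (h0 : 0 ≤ s) (h1 : s < 1) : Pp β s ∈ KK β :=
  ⟨true, s, by simp [pos, Int.fract_eq_self.2 ⟨h0, h1⟩]⟩

lemma Pm_mem_KK {s : ℝ} (h0 : 0 < s) (h1 : s ≤ 1) : Pm β s ∈ KK β := by
  refine ⟨false, s, ?_⟩
  simp only [pos, Bool.false_eq_true, if_false]
  congr 1
  have : Int.fract (-s) = 1 - s := fract_eq_of_int (-1) (by push_cast; ring) (by linarith) (by linarith)
  rw [this]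
  ring

lemma KK_cases {u : ℝ} (hu : u ∈ KK β) :
    (∃ s, 0 ≤ s ∧ s < 1 ∧ u = Pp β s) ∨ ∃ s, 0 < s ∧ s ≤ 1 ∧ u = Pm β s := by
  obtain ⟨b, θ, rfl⟩ := hu
  rcases b with _ | _
  · right
    refine ⟨1 - Int.fract (-θ), ?_, ?_, by simp [pos]⟩
    · linarith [Int.fract_lt_one (-θ)]
    · linarith [Int.fract_nonneg (-θ)]
  · left
    exact ⟨Int.fract θ, Int.fract_nonneg θ, Int.fract_lt_one θ, by simp [pos]⟩

lemma phm_nonneg {s : ℝ} (h0 : 0 ≤ s) : 0 ≤ phm β s := by
  have := phm_mono (β := β) h0
  rwa [phm_zero] at this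

lemma phm_le_half {s : ℝ} (h1 : s ≤ 1) : phm β s ≤ 1 / 2 := by
  have := phm_mono (β := β) h1
  rwa [phm_one] at this

lemma php_le_half {s : ℝ} (h1 : s ≤ 1) : php β s ≤ 1 / 2 := by
  have := php_mono (β := β) h1
  rwa [php_one] at this

lemma php_nonneg {s : ℝ} (h0 : 0 ≤ s) : 0 ≤ php β s :=
  (phm_nonneg h0).trans (phm_le_php s)

/-- elements of `KK` lie in the left part or the right part -/
lemma KK_part (h : Par β) {u : ℝ} (hu : u ∈ KK β) :
    (0 ≤ u ∧ u ≤ pA β ∧ ∃ s, 0 ≤ s ∧ s ≤ 1 - β ∧ (u = phm β s ∨ u = php β s)) ∨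
    (pA β + 1 / 2 ≤ u ∧ u ≤ 1 ∧ ∃ s, 1 - β ≤ s ∧ s ≤ 1 ∧
      (u = 1 + pA β - phm β s ∨ u = 1 + pA β - php β s)) := by
  have hpos := h.pos
  have hlt := h.lt
  rcases KK_cases hu with ⟨s, h0, h1, rfl⟩ | ⟨s, h0, h1, rfl⟩
  · unfold Pp
    split_ifs with h2
    · left
      exact ⟨php_nonneg h0, (php_lt_phm _ _ h2).le, s, h0, h2.le, Or.inr rfl⟩
    · right
      rw [not_lt] at h2
      have h3 := php_le_half (β := β) h1.le
      have h4 := php_mono (β := β) h2
      rw [← pA_eq h] at h4
      exact ⟨by linarith, by linarith, s, h2, h1.le, Or.inr rfl⟩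
  · unfold Pm
    split_ifs with h2
    · left
      exact ⟨phm_nonneg h0.le, phm_mono h2, s, h0.le, h2, Or.inl rfl⟩
    · right
      rw [not_le] at h2
      have h3 := phm_le_half (β := β) h1
      have h4 := phm_mono (β := β) h2.le
      change pA β ≤ _ at h4
      exact ⟨by linarith, by linarith, s, h2.le, h1, Or.inl rfl⟩

/-- no value of `phm`, `php` lies strictly inside a jump -/
lemma not_in_jump {s s' u : ℝ} (hu : u = phm β s' ∨ u = php β s') :
    ¬ (phm β s < u ∧ u < php β s) := by
  rintro ⟨h1, h2⟩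
  rcases lt_trichotomy s' s with hlt | heq | hgt
  · have h3 := php_lt_phm (β := β) _ _ hlt
    have h4 := phm_le_php (β := β) s'
    rcases hu with rfl | rfl <;> linarith
  · subst heq
    rcases hu with rfl | rfl <;> linarith
  · have h3 := php_lt_phm (β := β) _ _ hgt
    have h4 := phm_le_php (β := β) s'
    rcases hu with rfl | rfl <;> linarith

/-- a point of `[0,1]` outside `KK` has a neighbourhood missing `KK` -/
lemma mem_KK_or_gap (h : Par β) {u : ℝ} (hu : u ∈ Set.Icc (0 : ℝ) 1) :
    u ∈ KK β ∨ ∃ O : Set ℝ, IsOpen O ∧ u ∈ O ∧ ∀ z ∈ KK β, z ∉ O := by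
  have hpos := h.pos
  have hlt := h.lt
  have hA := pA_lt h
  rcases le_or_gt u (pA β) with h1 | h1
  · obtain ⟨s, hs0, hs1, hs2, hs3⟩ := exists_base_point (β := β) u hu.1 (by linarith)
    have hsb : s ≤ 1 - β := by
      by_contra hcon
      rw [not_le] at hcon
      have := php_lt_phm (β := β) _ _ hcon
      rw [← pA_eq h] at this
      linarith
    rcases hs2.eq_or_lt with heq | hlt2
    · left
      rcases hs0.eq_or_lt with h0 | h0
      · have h2 : u = Pp β 0 := by
          unfold Pp
          rw [if_pos (by linarith), php_zero h, ← heq, ← h0, phm_zero]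
        rw [h2]
        exact Pp_mem_KK le_rfl zero_lt_one
      · have h2 : u = Pm β s := by
          unfold Pm
          rw [if_pos hsb, heq]
        rw [h2]
        exact Pm_mem_KK h0 hs1
    · rcases hs3.eq_or_lt with heq | hlt3
      · left
        rcases hsb.eq_or_lt with hb | hb
        · exfalso
          rw [hb] at hlt2 heq
          rw [php_b1 h] at heq
          linarith
        · have h2 : u = Pp β s := by
            unfold Pp
            rw [if_pos hb, heq]
          rw [h2]
          exact Pp_mem_KK hs0 (by linarith)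
      · right
        refine ⟨Set.Ioo (phm β s) (php β s), isOpen_Ioo, ⟨hlt2, hlt3⟩, ?_⟩
        intro z hz hzO
        rcases KK_part h hz with ⟨-, -, s', -, -, hs'⟩ | ⟨hz1, -, -⟩
        · exact not_in_jump hs' hzO
        · have h2 : php β s ≤ pA β := by
            rw [pA_eq h]
            exact php_mono hsb
          linarith [hzO.2]
  · rcases lt_or_ge u (pA β + 1 / 2) with h2 | h2
    · right
      refine ⟨Set.Ioo (pA β) (pA β + 1 / 2), isOpen_Ioo, ⟨h1, h2⟩, ?_⟩
      intro z hz hzO
      rcases KK_part h hz with ⟨-, hz1, -⟩ | ⟨hz1, -, -⟩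
      · linarith [hzO.1]
      · linarith [hzO.2]
    · obtain ⟨s, hs0, hs1, hs2, hs3⟩ := exists_base_point (β := β) (1 + pA β - u)
        (by linarith [hu.2, pE_pos h, pE_lt_pC h, pC_lt_pA h]) (by linarith)
      have hsb : 1 - β ≤ s := by
        by_contra hcon
        rw [not_le] at hcon
        have := php_lt_phm (β := β) _ _ hcon
        change _ < pA β at this
        linarith [hu.2]
      rcases hs2.eq_or_lt with heq | hlt2
      · left
        rcases hsb.eq_or_lt with hb | hb
        · have h3 : u = Pp β s := by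
            unfold Pp
            rw [if_neg (by linarith), ← hb, php_b1 h, hb]
            linarith
          rw [h3]
          exact Pp_mem_KK hs0 (by linarith)
        · have h3 : u = Pm β s := by
            unfold Pm
            rw [if_neg (by linarith)]
            linarith
          rw [h3]
          exact Pm_mem_KK (by linarith) hs1
      · rcases hs3.eq_or_lt with heq | hlt3
        · left
          rcases hs1.eq_or_lt with hb | hb
          · exfalso
            rw [hb] at hlt2 heq
            rw [phm_one] at hlt2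
            rw [php_one] at heq
            linarith
          · have h3 : u = Pp β s := by
              unfold Pp
              rw [if_neg (by linarith)]
              linarith
            rw [h3]
            exact Pp_mem_KK hs0 hb
        · right
          refine ⟨Set.Ioo (1 + pA β - php β s) (1 + pA β - phm β s), isOpen_Ioo,
            ⟨by linarith, by linarith⟩, ?_⟩
          intro z hz hzO
          rcases KK_part h hz with ⟨-, hz1, -⟩ | ⟨-, -, s', -, -, hs'⟩
          · have h3 := php_le_half (β := β) hs1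
            linarith [hzO.1]
          · refine not_in_jump (β := β) (s := s) (s' := s') (u := 1 + pA β - z) ?_
              ⟨by linarith [hzO.2], by linarith [hzO.1]⟩
            rcases hs' with rfl | rfl
            · left; ring
            · right; ring

lemma pos_of_fract {b : Bool} {θ : ℝ} (hθ : 0 < Int.fract θ) :
    pos β b θ = Pp β (Int.fract θ) ∨ pos β b θ = Pm β (Int.fract θ) := by
  rcases b with _ | _
  · right
    simp only [pos, Bool.false_eq_true, if_false]
    rw [Int.fract_neg hθ.ne']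
    congr 1
    ring
  · left
    simp [pos]

lemma tendsto_Pp_Pm_right (h : Par β) {s : ℝ} :
    Tendsto (Pp β) (𝓝[>] s) (𝓝 (Pp β s)) ∧ Tendsto (Pm β) (𝓝[>] s) (𝓝 (Pp β s)) := by
  rcases lt_or_ge s (1 - β) with h1 | h1
  · have e : Pp β s = php β s := by unfold Pp; rw [if_pos h1]
    rw [e]
    constructor
    · refine (php_right s).congr' ?_
      filter_upwards [mem_nhdsWithin_of_mem_nhds (Iio_mem_nhds h1)] with y hy
      unfold Pp
      rw [if_pos (show y < 1 - β from hy)]
    · refine (phm_right s).congr' ?_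
      filter_upwards [mem_nhdsWithin_of_mem_nhds (Iio_mem_nhds h1)] with y hy
      unfold Pm
      rw [if_pos (le_of_lt hy)]
  · have e : Pp β s = 1 + pA β - php β s := by unfold Pp; rw [if_neg (not_lt.2 h1)]
    rw [e]
    constructor
    · refine ((php_right s).const_sub (1 + pA β)).congr' ?_
      filter_upwards [self_mem_nhdsWithin] with y hy
      have hy' : s < y := hy
      unfold Pp
      rw [if_neg (by linarith)]
    · refine ((phm_right s).const_sub (1 + pA β)).congr' ?_
      filter_upwards [self_mem_nhdsWithin] with y hy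
      have hy' : s < y := hy
      unfold Pm
      rw [if_neg (by linarith)]

lemma tendsto_Pp_Pm_left (h : Par β) {s : ℝ} :
    Tendsto (Pp β) (𝓝[<] s) (𝓝 (Pm β s)) ∧ Tendsto (Pm β) (𝓝[<] s) (𝓝 (Pm β s)) := by
  rcases le_or_gt s (1 - β) with h1 | h1
  · have e : Pm β s = phm β s := by unfold Pm; rw [if_pos h1]
    rw [e]
    constructor
    · refine (php_left s).congr' ?_
      filter_upwards [self_mem_nhdsWithin] with y hy
      have hy' : y < s := hy
      unfold Pp
      rw [if_pos (by linarith)]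
    · refine (phm_left s).congr' ?_
      filter_upwards [self_mem_nhdsWithin] with y hy
      have hy' : y < s := hy
      unfold Pm
      rw [if_pos (by linarith)]
  · have e : Pm β s = 1 + pA β - phm β s := by unfold Pm; rw [if_neg (not_le.2 h1)]
    rw [e]
    constructor
    · refine ((php_left s).const_sub (1 + pA β)).congr' ?_
      filter_upwards [mem_nhdsWithin_of_mem_nhds (Ioi_mem_nhds h1)] with y hy
      have hy' : 1 - β < y := hy
      unfold Pp
      rw [if_neg (by linarith)]
    · refine ((phm_left s).const_sub (1 + pA β)).congr' ?_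
      filter_upwards [mem_nhdsWithin_of_mem_nhds (Ioi_mem_nhds h1)] with y hy
      have hy' : 1 - β < y := hy
      unfold Pm
      rw [if_neg (by linarith)]

/-- forward orbits of points of `KK` are dense in `KK` -/
lemma dense_orbit (h : Par β) (b : Bool) (θ : ℝ) {z : ℝ} (hz : z ∈ KK β) {O : Set ℝ}
    (hO : O ∈ 𝓝 z) : ∃ n : ℕ, (F β)^[n] (pos β b θ) ∈ O := by
  rcases KK_cases hz with ⟨s, h0, h1, rfl⟩ | ⟨s, h0, h1, rfl⟩
  · obtain ⟨t1, t2⟩ := tendsto_Pp_Pm_right h (s := s)
    have h2 := (t1.eventually_mem hO).and (t2.eventually_mem hO)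
    have h3 : ∀ᶠ y in 𝓝[>] s, y ∈ Set.Ioo s 1 := Ioo_mem_nhdsGT h1
    rw [eventually_nhdsWithin_iff] at h2
    obtain ⟨δ, hδ, hball⟩ := Metric.eventually_nhds_iff.1 h2
    obtain ⟨n, hn⟩ := rot_dense h.irr θ s (min (s + δ) 1) h0
      (lt_min (by linarith) h1) (min_le_right _ _)
    refine ⟨n, ?_⟩
    rw [F_iter_pos h]
    have h4 := hball (y := Int.fract (θ + n * β)) (by
      rw [Real.dist_eq, abs_of_pos (by linarith [hn.1])]
      linarith [lt_of_lt_of_le hn.2 (min_le_left _ _)]) hn.1
    rcases pos_of_fract (β := β) (b := b) (θ := θ + n * β) (lt_of_le_of_lt h0 hn.1) with h5 | h5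
    · rw [h5]; exact h4.1
    · rw [h5]; exact h4.2
  · obtain ⟨t1, t2⟩ := tendsto_Pp_Pm_left h (s := s)
    have h2 := (t1.eventually_mem hO).and (t2.eventually_mem hO)
    rw [eventually_nhdsWithin_iff] at h2
    obtain ⟨δ, hδ, hball⟩ := Metric.eventually_nhds_iff.1 h2
    obtain ⟨n, hn⟩ := rot_dense h.irr θ (max (s - δ) 0) s (le_max_right _ _)
      (max_lt (by linarith) h0) h1
    refine ⟨n, ?_⟩
    rw [F_iter_pos h]
    have h4 := hball (y := Int.fract (θ + n * β)) (by
      rw [Real.dist_eq, abs_of_neg (by linarith [hn.2])]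
      linarith [lt_of_le_of_lt (le_max_left _ _) hn.1]) hn.2
    rcases pos_of_fract (β := β) (b := b) (θ := θ + n * β)
      (lt_of_le_of_lt (le_max_right _ _) hn.1) with h5 | h5
    · rw [h5]; exact h4.1
    · rw [h5]; exact h4.2

lemma KK_mem_Icc (h : Par β) {u : ℝ} (hu : u ∈ KK β) : u ∈ Set.Icc (0 : ℝ) 1 := by
  have hA := pA_lt h
  have hE := pE_pos h
  have hEC := pE_lt_pC h
  have hCA := pC_lt_pA h
  rcases KK_part h hu with ⟨h1, h2, -⟩ | ⟨h1, h2, -⟩
  · exact ⟨h1, by linarith⟩
  · exact ⟨by linarith, h2⟩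

/-- `F` is injective on `KK` -/
lemma injOn_KK (h : Par β) : Set.InjOn (F β) (KK β) := by
  have hA := pA_lt h
  have hE := pE_pos h
  have hEC := pE_lt_pC h
  have hCA := pC_lt_pA h
  have hph := phm_beta_lt h
  have hpp := php_beta h
  have hw := wt_pos (n := 1) (by norm_num) (by norm_num)
  have m1 := strictMonoOn_F h
  have m2 := strictAntiOn_F h
  -- classification into three pieces with disjoint ranges
  have key : ∀ u ∈ KK β, (u ∈ Set.Icc 0 (pE β) ∧ php β β ≤ F β u ∧ F β u ≤ pA β) ∨
      (u ∈ Set.Icc (pC β) (pA β) ∧ pA β + 1 / 2 ≤ F β u) ∨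
      (u ∈ Set.Icc (pA β + 1 / 2) 1 ∧ F β u ≤ phm β β) := by
    intro u hu
    rcases KK_part h hu with ⟨h1, h2, s, hs0, hs1, hs⟩ | ⟨h1, h2, -⟩
    · rcases le_or_gt u (pE β) with h3 | h3
      · left
        refine ⟨⟨h1, h3⟩, ?_, ?_⟩
        · have := m1.monotoneOn ⟨le_rfl, by linarith⟩ ⟨h1, by linarith⟩ h1
          rwa [F_zero h] at this
        · have := m1.monotoneOn ⟨h1, by linarith⟩ ⟨hE.le, hEC.le⟩ h3
          rwa [F_E h] at this
      · right
        left
        have h4 : pC β ≤ u := by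
          by_contra hcon
          exact not_in_jump (β := β) hs ⟨h3, not_le.1 hcon⟩
        refine ⟨⟨h4, h2⟩, ?_⟩
        have := m2.antitoneOn ⟨h4, by linarith⟩ ⟨hCA.le, by linarith⟩ h2
        rwa [F_A h] at this
    · right
      right
      refine ⟨⟨h1, h2⟩, ?_⟩
      have := m2.antitoneOn ⟨by linarith, by linarith⟩ ⟨by linarith, h2⟩ h1
      rwa [F_mid h] at this
  intro u hu v hv huv
  have ku := key u hu
  have kv := key v hv
  rcases ku with ⟨a1, a2, a3⟩ | ⟨a1, a2⟩ | ⟨a1, a2⟩ <;>
    rcases kv with ⟨b1, b2, b3⟩ | ⟨b1, b2⟩ | ⟨b1, b2⟩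
  · exact m1.injOn ⟨a1.1, a1.2.trans hEC.le⟩ ⟨b1.1, b1.2.trans hEC.le⟩ huv
  · exfalso; linarith
  · exfalso; linarith
  · exfalso; linarith
  · exact m2.injOn ⟨a1.1, by linarith [a1.2]⟩ ⟨b1.1, by linarith [b1.2]⟩ huv
  · exfalso; linarith
  · exfalso; linarith
  · exfalso; linarith
  · exact m2.injOn ⟨by linarith [a1.1], a1.2⟩ ⟨by linarith [b1.1], b1.2⟩ huv

lemma surjOn_KK (h : Par β) {u : ℝ} (hu : u ∈ KK β) : ∃ v ∈ KK β, F β v = u := by
  obtain ⟨b, θ, rfl⟩ := hu
  refine ⟨pos β b (θ - β), ⟨b, _, rfl⟩, ?_⟩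
  rw [F_pos h, sub_add_cancel]

lemma mapsTo_KK (h : Par β) {u : ℝ} (hu : u ∈ KK β) : F β u ∈ KK β := by
  obtain ⟨b, θ, rfl⟩ := hu
  exact ⟨b, θ + β, F_pos h b θ⟩

end

end Pool.Agent.W_MP_23b248_an
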