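import Mathlib
import Pool.Agent.W_MP_23b248_an.Orbits
import Pool.Agent.W_MP_23b248_an.Dyn

set_option autoImplicit false

/-!
The explicit example: a longbranched unimodal map, with infinitely recurrent turning point, whose
restriction to the critical omega-limit set is a minimal homeomorphism.
-/

namespace Pool.Agent.W_MP_23b248_an

open Filter Topology

section

variable {β : ℝ}

/-- the map on the unit interval -/
noncomputable def fU (h : Par β) (u : unitInterval) : unitInterval :=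
  ⟨F β u, F_mem h u.2⟩

lemma pC_mem (h : Par β) : pC β ∈ Set.Icc (0 : ℝ) 1 := by
  have hA := pA_lt h
  have hE := pE_pos h
  have hEC := pE_lt_pC h
  have hCA := pC_lt_pA h
  exact ⟨by linarith, by linarith⟩

/-- the turning point -/
noncomputable def cU (h : Par β) : unitInterval := ⟨pC β, pC_mem h⟩

lemma fU_iter_coe (h : Par β) (u : unitInterval) (n : ℕ) :
    (((fU h)^[n] u : unitInterval) : ℝ) = (F β)^[n] (u : ℝ) := by
  induction n with
  | zero => rfl
  | succ n ih =>
    rw [Function.iterate_succ_apply', Function.iterate_succ_apply', ← ih]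
    rfl

lemma cU_eq_Pp (h : Par β) : (cU h : ℝ) = Pp β (sn β (-2)) := by
  rw [sn_neg_two h.pos h.lt]
  unfold Pp
  rw [if_pos (by linarith [h.pos])]
  rfl

lemma F_Pp_sn (h : Par β) (n : ℤ) : F β (Pp β (sn β n)) = Pp β (sn β (n + 1)) := by
  rcases lt_or_ge (sn β n) (1 - β) with h1 | h1
  · rw [F_Pp_lt h (sn_nonneg β n) h1, sn_succ_of_lt h.pos n h1]
  · rw [F_Pp_ge h h1 (sn_lt_one β n), sn_succ_of_ge (by linarith [h.lt]) n h1]

lemma orbit_coe (h : Par β) (n : ℕ) :
    (((fU h)^[n] (cU h) : unitInterval) : ℝ) = Pp β (sn β ((n : ℤ) - 2)) := by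
  rw [fU_iter_coe]
  induction n with
  | zero =>
    rw [Function.iterate_zero, id, cU_eq_Pp]
    norm_num
  | succ n ih =>
    rw [Function.iterate_succ_apply', ih, F_Pp_sn h]
    congr 2
    push_cast
    ring

lemma Pp_injOn (h : Par β) {s s' : ℝ} (hs : s < 1) (hs' : s' < 1) (he : Pp β s = Pp β s') :
    s = s' := by
  have hA := pA_lt h
  have inj : ∀ x y : ℝ, php β x = php β y → x = y := by
    intro x y hxy
    rcases lt_trichotomy x y with h1 | h1 | h1
    · exact absurd hxy (php_lt_php h1).ne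
    · exact h1
    · exact absurd hxy (php_lt_php h1).ne'
  unfold Pp at he
  split_ifs at he with h1 h2 h2
  · exact inj _ _ he
  · exfalso
    have h3 : php β s < pA β := php_lt_phm _ _ h1
    have h4 := php_le_half (β := β) hs'.le
    linarith
  · exfalso
    have h3 : php β s' < pA β := php_lt_phm _ _ h2
    have h4 := php_le_half (β := β) hs.le
    linarith
  · exact inj _ _ (by linarith)

/-- comparison of a right copy with the turning point -/
lemma pC_lt_Pp_iff (h : Par β) {s : ℝ} (hs : s < 1) : pC β < Pp β s ↔ 1 - 2 * β < s := by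
  have hA := pA_lt h
  have hCA := pC_lt_pA h
  have hpos := h.pos
  unfold Pp
  split_ifs with h1
  · constructor
    · intro h2
      by_contra hcon
      rw [not_lt] at hcon
      have : php β s ≤ pC β := php_mono hcon
      linarith
    · intro h2
      exact php_lt_php h2
  · rw [not_lt] at h1
    have h4 := php_le_half (β := β) hs.le
    constructor
    · intro _
      linarith
    · intro _
      linarith

lemma kneading_fU (h : Par β) (n : ℕ) :
    kneading (fU h) (cU h) n = 1 ↔ 1 - 2 * β < sn β ((n : ℤ) - 2) := by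
  rw [kneading_eq_one_iff, ← Subtype.coe_lt_coe, orbit_coe h, ← pC_lt_Pp_iff h (sn_lt_one β _)]
  rfl

lemma nonperiodic (h : Par β) (n : ℕ) (hn : 1 ≤ n) : (fU h)^[n] (cU h) ≠ cU h := by
  intro he
  have h1 : (((fU h)^[n] (cU h) : unitInterval) : ℝ) = (cU h : ℝ) := by rw [he]
  rw [orbit_coe h, cU_eq_Pp] at h1
  have h2 := sn_inj h.irr (Pp_injOn h (sn_lt_one β _) (sn_lt_one β _) h1)
  omega

/-- the set `KK` inside the unit interval -/
def KU (β : ℝ) : Set unitInterval := {u | (u : ℝ) ∈ KK β}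

lemma dense_orbit_U (h : Par β) {y z : unitInterval} (hy : y ∈ KU β) (hz : z ∈ KU β)
    {O : Set unitInterval} (hO : O ∈ 𝓝 z) : ∃ n : ℕ, (fU h)^[n] y ∈ O := by
  rw [nhds_induced, mem_comap] at hO
  obtain ⟨V, hV, hVO⟩ := hO
  obtain ⟨b, θ, hbθ⟩ := hy
  obtain ⟨n, hn⟩ := dense_orbit h b θ hz hV
  refine ⟨n, hVO ?_⟩
  change (((fU h)^[n] y : unitInterval) : ℝ) ∈ V
  rw [fU_iter_coe, hbθ]
  exact hn

lemma mapsTo_KU (h : Par β) {y : unitInterval} (hy : y ∈ KU β) (n : ℕ) :
    (fU h)^[n] y ∈ KU β := by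
  induction n with
  | zero => exact hy
  | succ n ih =>
    rw [Function.iterate_succ_apply']
    exact mapsTo_KK h ih

lemma cU_mem (h : Par β) : cU h ∈ KU β := by
  change (cU h : ℝ) ∈ KK β
  rw [cU_eq_Pp]
  exact Pp_mem_KK (sn_nonneg β _) (sn_lt_one β _)

lemma omega_eq (h : Par β) : omega (fU h) (cU h) = KU β := by
  apply Set.Subset.antisymm
  · intro u hu
    rcases mem_KK_or_gap h u.2 with h1 | ⟨O, hO, huO, hmiss⟩
    · exact h1
    · exfalso
      have hO' : (fun u : unitInterval => (u : ℝ)) ⁻¹' O ∈ 𝓝 u :=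
        (hO.preimage continuous_subtype_val).mem_nhds huO
      obtain ⟨n, -, hn⟩ := (mem_omega_iff _ _ _).1 hu _ hO' 0
      exact hmiss _ (mapsTo_KU h (cU_mem h) n) hn
  · intro u hu
    rw [mem_omega_iff]
    intro U hU N
    obtain ⟨n, hn⟩ := dense_orbit_U h (mapsTo_KU h (cU_mem h) N) hu hU
    refine ⟨n + N, by omega, ?_⟩
    rw [Function.iterate_add_apply]
    exact hn

lemma isMinimalHomeo_fU (h : Par β) : IsMinimalHomeo (fU h) (cU h) := by
  unfold IsMinimalHomeo
  rw [omega_eq h]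
  refine ⟨⟨fun u hu => mapsTo_KK h hu, ?_, ?_⟩, ?_⟩
  · intro u hu v hv huv
    apply Subtype.ext
    exact injOn_KK h hu hv (congrArg (fun u : unitInterval => (u : ℝ)) huv)
  · intro u hu
    obtain ⟨v, hv, hvu⟩ := surjOn_KK h hu
    exact ⟨⟨v, KK_mem_Icc h hv⟩, hv, Subtype.ext hvu⟩
  · intro y hy z hz
    rw [mem_closure_iff_nhds]
    intro O hO
    obtain ⟨n, hn⟩ := dense_orbit_U h hy hz hO
    exact ⟨_, hn, n, rfl⟩

lemma isInfinitelyRecurrent_fU (h : Par β) : IsInfinitelyRecurrent (fU h) (cU h) := by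
  refine ⟨?_, nonperiodic h⟩
  rw [omega_eq h]
  exact cU_mem h

lemma isUnimodal_fU (h : Par β) : IsUnimodal (fU h) (cU h) := by
  have hA := pA_lt h
  have hE := pE_pos h
  have hEC := pE_lt_pC h
  have hCA := pC_lt_pA h
  have hpos := h.pos
  have hlt := h.lt
  have c1 : (((fU h)^[1] (cU h) : unitInterval) : ℝ) = 1 := by
    rw [orbit_coe h]
    norm_num
    rw [sn_neg_one h.pos (by linarith)]
    unfold Pp
    rw [if_neg (lt_irrefl _), ← pA_eq h]
    ring
  have c2 : (((fU h)^[2] (cU h) : unitInterval) : ℝ) = 0 := by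
    rw [orbit_coe h]
    norm_num
    rw [sn_zero]
    unfold Pp
    rw [if_pos (by linarith), php_zero h]
  have c3 : (((fU h)^[3] (cU h) : unitInterval) : ℝ) = php β β := by
    rw [orbit_coe h]
    norm_num
    rw [sn_one h.pos (by linarith)]
    unfold Pp
    rw [if_pos (by linarith)]
  refine ⟨?_, ?_, ?_, ?_, ?_, ?_, ?_, ?_⟩
  · exact Continuous.subtype_mk ((continuous_F h).comp continuous_subtype_val) _
  · rw [← Subtype.coe_lt_coe]
    change (0 : ℝ) < pC β
    linarith
  · rw [← Subtype.coe_lt_coe]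
    change pC β < (1 : ℝ)
    linarith
  · intro x hx y hy hxy
    rw [← Subtype.coe_lt_coe]
    exact strictMonoOn_F h ⟨x.2.1, hx.2⟩ ⟨y.2.1, hy.2⟩ hxy
  · intro x hx y hy hxy
    rw [← Subtype.coe_lt_coe]
    exact strictAntiOn_F h ⟨hx.1, x.2.2⟩ ⟨hy.1, y.2.2⟩ hxy
  · rw [← Subtype.coe_lt_coe, c2]
    change (0 : ℝ) < pC β
    linarith
  · rw [← Subtype.coe_lt_coe, c1]
    change pC β < (1 : ℝ)
    linarith
  · rw [← Subtype.coe_lt_coe, c2, c3]
    exact (phm_beta_pos h).trans_le (phm_le_php β)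

open Classical in
/-- the cutting times of the example -/
noncomputable def SS (β : ℝ) : ℕ → ℕ
  | 0 => 1
  | k + 1 => if 1 - 2 * β < sn β ((SS β k : ℤ) - 1) then SS β k + 2 else SS β k + 1

open Classical in
/-- the kneading map of the example -/
noncomputable def QQ (β : ℝ) (k : ℕ) : ℕ :=
  if 1 - 2 * β < sn β ((SS β (k - 1) : ℤ) - 1) then 1 else 0

lemma SS_succ_pos {k : ℕ} (hc : 1 - 2 * β < sn β ((SS β k : ℤ) - 1)) :
    SS β (k + 1) = SS β k + 2 := by
  rw [SS, if_pos hc]

lemma SS_succ_neg {k : ℕ} (hc : ¬ 1 - 2 * β < sn β ((SS β k : ℤ) - 1)) :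
    SS β (k + 1) = SS β k + 1 := by
  rw [SS, if_neg hc]

lemma SS_pos (β : ℝ) (k : ℕ) : 1 ≤ SS β k := by
  induction k with
  | zero => exact le_rfl
  | succ k ih =>
    unfold SS
    split_ifs <;> omega

lemma SS_inv (h : Par β) (k : ℕ) : sn β ((SS β k : ℤ) - 1) < 1 - β := by
  have hpos := h.pos
  have hlt := h.lt
  induction k with
  | zero =>
    unfold SS
    norm_num
    rw [sn_zero]
    linarith
  | succ k ih =>
    have hk := SS_pos β k
    have e : sn β (((SS β k : ℤ) - 1) + 1) = sn β ((SS β k : ℤ) - 1) + β :=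
      sn_succ_of_lt hpos _ ih
    by_cases hc : 1 - 2 * β < sn β ((SS β k : ℤ) - 1)
    · have e1 : SS β (k + 1) = SS β k + 2 := by
        rw [SS, if_pos hc]
      rw [e1]
      have e2 : sn β ((((SS β k : ℤ) - 1) + 1) + 1) = sn β (((SS β k : ℤ) - 1) + 1) + β - 1 :=
        sn_succ_of_ge (by linarith) _ (by rw [e]; linarith)
      have e3 : (((SS β k + 2 : ℕ) : ℤ) - 1) = (((SS β k : ℤ) - 1) + 1) + 1 := by
        push_cast
        ring
      rw [e3, e2]
      have := sn_lt_one β (((SS β k : ℤ) - 1) + 1)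
      linarith
    · have e1 : SS β (k + 1) = SS β k + 1 := by
        rw [SS, if_neg hc]
      have e3 : (((SS β k + 1 : ℕ) : ℤ) - 1) = ((SS β k : ℤ) - 1) + 1 := by
        push_cast
        ring
      rw [e1, e3, e]
      have hne : sn β ((SS β k : ℤ) - 1) ≠ 1 - 2 * β := by
        rw [← sn_neg_two h.pos h.lt]
        intro he
        have := sn_inj h.irr he
        omega
      have := lt_of_le_of_ne (not_lt.1 hc) hne
      linarith

lemma kneading_fU_zero (h : Par β) {n : ℕ} (hn : ¬ 1 - 2 * β < sn β ((n : ℤ) - 2)) :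
    kneading (fU h) (cU h) n = 0 := by
  rcases kneading_zero_or_one (fU h) (cU h) n with h0 | h0
  · exact h0
  · exact absurd ((kneading_fU h n).1 h0) hn

lemma isCuttingTimes_SS (h : Par β) : IsCuttingTimes (fU h) (cU h) (SS β) := by
  have hpos := h.pos
  have hlt := h.lt
  have hν1 : kneading (fU h) (cU h) 1 = 1 := by
    rw [kneading_fU h]
    norm_num
    rw [sn_neg_one h.pos (by linarith)]
    linarith
  have hν2 : kneading (fU h) (cU h) 2 = 0 := by
    apply kneading_fU_zero h
    norm_num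
    rw [sn_zero]
    linarith
  refine ⟨rfl, fun k => ?_⟩
  have hinv := SS_inv h k
  have e : sn β (((SS β k : ℤ) - 1) + 1) = sn β ((SS β k : ℤ) - 1) + β :=
    sn_succ_of_lt hpos _ hinv
  by_cases hc : 1 - 2 * β < sn β ((SS β k : ℤ) - 1)
  · have e1 : SS β (k + 1) = SS β k + 2 := by
      rw [SS, if_pos hc]
    have hA : kneading (fU h) (cU h) (SS β k + 1) = 1 := by
      rw [kneading_fU h, show (((SS β k + 1 : ℕ) : ℤ) - 2) = (SS β k : ℤ) - 1 by push_cast; ring]
      exact hc
    have hB : kneading (fU h) (cU h) (SS β k + 2) = 1 := by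
      rw [kneading_fU h,
        show (((SS β k + 2 : ℕ) : ℤ) - 2) = ((SS β k : ℤ) - 1) + 1 by push_cast; ring, e]
      linarith
    rw [e1]
    constructor
    · refine ⟨by omega, ?_⟩
      rw [Nat.add_sub_cancel_left, hB, hν2]
      norm_num
    · rintro n ⟨hn1, hn2⟩
      by_contra hcon
      obtain rfl : n = SS β k + 1 := by omega
      rw [Nat.add_sub_cancel_left, hA, hν1] at hn2
      exact hn2 rfl
  · have e1 : SS β (k + 1) = SS β k + 1 := by
      rw [SS, if_neg hc]
    have hA : kneading (fU h) (cU h) (SS β k + 1) = 0 := by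
      apply kneading_fU_zero h
      rw [show (((SS β k + 1 : ℕ) : ℤ) - 2) = (SS β k : ℤ) - 1 by push_cast; ring]
      exact hc
    rw [e1]
    constructor
    · refine ⟨by omega, ?_⟩
      rw [Nat.add_sub_cancel_left, hA, hν1]
      norm_num
    · rintro n ⟨hn1, hn2⟩
      omega

lemma SS_one (h : Par β) : SS β 1 = 2 := by
  have hlt := h.lt
  have h0 : SS β 0 = 1 := rfl
  rw [show SS β 1 = _ from SS.eq_2 β 0, h0]
  rw [if_neg]
  norm_num
  rw [sn_zero]
  linarith

lemma isKneadingMap_QQ (h : Par β) : IsKneadingMap (SS β) (QQ β) := by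
  intro k hk
  obtain ⟨m, rfl⟩ : ∃ m, k = m + 1 := ⟨k - 1, by omega⟩
  simp only [Nat.add_sub_cancel]
  unfold QQ
  simp only [Nat.add_sub_cancel]
  by_cases hc : 1 - 2 * β < sn β ((SS β m : ℤ) - 1)
  · rw [if_pos hc, SS_succ_pos hc, SS_one h]
    omega
  · rw [if_neg hc, SS_succ_neg hc]
    change SS β m + 1 - SS β m = 1
    omega

lemma isLongbranched_fU (h : Par β) : IsLongbranched (fU h) (cU h) := by
  refine ⟨SS β, QQ β, isCuttingTimes_SS h, isKneadingMap_QQ h, 1, fun k _ => ?_⟩
  unfold QQ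
  split_ifs <;> omega

lemma exists_par : ∃ β : ℝ, Par β := by
  refine ⟨Real.sqrt 2 / (5 : ℕ), ?_, by positivity, ?_⟩
  · exact irrational_sqrt_two.div_natCast (by norm_num)
  · have h1 : Real.sqrt 2 < 3 / 2 := by
      rw [Real.sqrt_lt' (by norm_num)]
      norm_num
    push_cast
    linarith

end

/-- There is a longbranched unimodal map with infinitely recurrent turning point `c` for which
`f : ω(c) → ω(c)` is a minimal homeomorphism. -/
theorem exists_example : ∃ (f : unitInterval → unitInterval) (c : unitInterval),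
    IsUnimodal f c ∧ IsInfinitelyRecurrent f c ∧ IsLongbranched f c ∧ IsMinimalHomeo f c := by
  obtain ⟨β, h⟩ := exists_par
  exact ⟨fU h, cU h, isUnimodal_fU h, isInfinitelyRecurrent_fU h, isLongbranched_fU h,
    isMinimalHomeo_fU h⟩

end Pool.Agent.W_MP_23b248_an
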