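import Mathlib

set_option autoImplicit false

/-!
A bijective continuous self-map of an infinite compact set is never one-sidedly generated by a
clopen partition into two pieces (a version of the theorem that infinite compact spaces carry no
positively expansive homeomorphism).
-/

namespace Pool.Agent.W_MP_23b248_an

open Filter Topology

theorem exists_same_itinerary {f : unitInterval → unitInterval} (hcont : Continuous f)
    {X : Set unitInterval} (hX : IsCompact X) (hinf : X.Infinite) (hmaps : Set.MapsTo f X X)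
    (hinj : Set.InjOn f X) (s : unitInterval → Bool)
    (hs : ∀ y ∈ X, ∀ᶠ z in 𝓝[X] y, s z = s y) :
    ∃ y ∈ X, ∃ y' ∈ X, y ≠ y' ∧ ∀ n : ℕ, s (f^[n] y) = s (f^[n] y') := by
  by_contra hcon
  have h : ∀ y ∈ X, ∀ y' ∈ X, (∀ n : ℕ, s (f^[n] y) = s (f^[n] y')) → y = y' := by
    intro y hy y' hy' hn
    by_contra hne
    exact hcon ⟨y, hy, y', hy', hne, hn⟩
  have hmapsn : ∀ n : ℕ, Set.MapsTo (f^[n]) X X := fun n => hmaps.iterate n
  -- Step 1
  have step1 : ∃ N : ℕ, ∀ y ∈ X, ∀ y' ∈ X,
      (∀ n, 1 ≤ n → n ≤ N → s (f^[n] y) = s (f^[n] y')) → s y = s y' := by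
    by_contra hno
    push Not at hno
    choose y hy y' hy' hag hdis using hno
    obtain ⟨a, ha, φ, hφ, hlim⟩ := (hX.prod hX).tendsto_subseq
      (x := fun N => (y N, y' N)) (fun N => ⟨hy N, hy' N⟩)
    obtain ⟨a1, a2⟩ := a
    obtain ⟨ha1, ha2⟩ := ha
    simp only at ha1 ha2
    have hl1 : Tendsto (fun k => y (φ k)) atTop (𝓝 a1) := 
      (continuous_fst.tendsto _).comp hlim
    have hl2 : Tendsto (fun k => y' (φ k)) atTop (𝓝 a2) := 
      (continuous_snd.tendsto _).comp hlim
    have ev1 : ∀ n : ℕ, ∀ᶠ k in atTop, s (f^[n] (y (φ k))) = s (f^[n] a1) := by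
      intro n
      have ht : Tendsto (fun k => f^[n] (y (φ k))) atTop (𝓝[X] (f^[n] a1)) := by
        rw [tendsto_nhdsWithin_iff]
        exact ⟨((hcont.iterate n).tendsto _).comp hl1, 
          Eventually.of_forall fun k => hmapsn n (hy _)⟩
      exact ht.eventually (hs _ (hmapsn n ha1))
    have ev2 : ∀ n : ℕ, ∀ᶠ k in atTop, s (f^[n] (y' (φ k))) = s (f^[n] a2) := by
      intro n
      have ht : Tendsto (fun k => f^[n] (y' (φ k))) atTop (𝓝[X] (f^[n] a2)) := by
        rw [tendsto_nhdsWithin_iff]
        exact ⟨((hcont.iterate n).tendsto _).comp hl2, 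
          Eventually.of_forall fun k => hmapsn n (hy' _)⟩
      exact ht.eventually (hs _ (hmapsn n ha2))
    have hne : s a1 ≠ s a2 := by
      obtain ⟨k, hk1, hk2⟩ := ((ev1 0).and (ev2 0)).exists
      simp only [Function.iterate_zero, id_eq] at hk1 hk2
      rw [← hk1, ← hk2]
      exact hdis (φ k)
    have heq : ∀ n : ℕ, 1 ≤ n → s (f^[n] a1) = s (f^[n] a2) := by
      intro n hn
      obtain ⟨k, hk1, hk2, hk3⟩ := ((ev1 n).and ((ev2 n).and (eventually_ge_atTop n))).exists
      rw [← hk1, ← hk2]
      exact hag (φ k) n hn (le_trans hk3 (hφ.le_apply))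
    have hff : f a1 = f a2 := by
      refine h _ (hmaps ha1) _ (hmaps ha2) ?_
      intro n
      rw [← Function.iterate_succ_apply, ← Function.iterate_succ_apply]
      exact heq (n + 1) (by omega)
    exact hne (by rw [hinj ha1 ha2 hff])
  obtain ⟨N, hN⟩ := step1
  -- Step 2
  have step2 : ∀ k : ℕ, ∀ u ∈ X, ∀ u' ∈ X,
      (∀ n, 1 ≤ n → n ≤ N → s (f^[k + n] u) = s (f^[k + n] u')) →
      ∀ m, m ≤ k → s (f^[m] u) = s (f^[m] u') := by
    intro k
    induction k with
    | zero =>
      intro u hu u' hu' hag m hm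
      obtain rfl : m = 0 := by omega
      simp only [Function.iterate_zero, id_eq]
      exact hN u hu u' hu' (fun n h1 h2 => by simpa using hag n h1 h2)
    | succ k ih =>
      intro u hu u' hu' hag m hm
      have h1 : s (f^[k + 1] u) = s (f^[k + 1] u') := by
        refine hN _ (hmapsn (k + 1) hu) _ (hmapsn (k + 1) hu') ?_
        intro n hn1 hn2
        rw [← Function.iterate_add_apply, ← Function.iterate_add_apply, add_comm n (k + 1)]
        exact hag n hn1 hn2
      rcases Nat.eq_or_lt_of_le hm with rfl | hlt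
      · exact h1
      · refine ih u hu u' hu' ?_ m (by omega)
        intro n hn1 hn2
        rcases Nat.eq_or_lt_of_le hn1 with rfl | hlt'
        · exact h1
        · have := hag (n - 1) (by omega) (by omega)
          rwa [show k + 1 + (n - 1) = k + n by omega] at this
  -- Step 3
  obtain ⟨t, htX, htcard⟩ := hinf.exists_subset_card_eq (2 ^ N + 1)
  have hsep : ∀ p : unitInterval × unitInterval, ∃ n : ℕ, p ∈ t.offDiag →
      s (f^[n] p.1) ≠ s (f^[n] p.2) := by
    intro p
    by_cases hp : p ∈ t.offDiag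
    · rw [Finset.mem_offDiag] at hp
      by_contra hno
      push Not at hno
      exact hp.2.2 (h _ (htX hp.1) _ (htX hp.2.1) fun n => (hno n).2)
    · exact ⟨0, fun h => absurd h hp⟩
  choose g hg using hsep
  set M := t.offDiag.sup g with hM
  -- pigeonhole
  have hpig : ∃ a ∈ t, ∃ b ∈ t, a ≠ b ∧
      (fun i : Fin N => s (f^[M + (i + 1)] a)) = (fun i : Fin N => s (f^[M + (i + 1)] b)) := by
    have hcard : (Finset.univ : Finset (Fin N → Bool)).card < t.card := by
      rw [htcard, Finset.card_univ]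
      simp
    exact Finset.exists_ne_map_eq_of_card_lt_of_maps_to hcard (fun a _ => Finset.mem_univ _)
  obtain ⟨a, ha, b, hb, hab, hwin⟩ := hpig
  have hag := step2 M a (htX ha) b (htX hb) (by
    intro n hn1 hn2
    have := congrFun hwin ⟨n - 1, by omega⟩
    simp only at this
    rwa [show M + (n - 1 + 1) = M + n by omega] at this)
  have hmem : (a, b) ∈ t.offDiag := Finset.mem_offDiag.2 ⟨ha, hb, hab⟩
  exact hg (a, b) hmem (hag (g (a, b)) (Finset.le_sup (f := g) hmem))

end Pool.Agent.W_MP_23b248_an
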