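import Mathlib
import Pool.Agent.W_MP_23b248_an.Dyn

set_option autoImplicit false

/-!
If `f` is longbranched with infinitely recurrent turning point and `f` restricted to `ω(c)` is a
minimal homeomorphism, then the orbit of `c` accumulates at `c` from one side only.
-/

namespace Pool.Agent.W_MP_23b248_an

open Filter Topology

variable {f : unitInterval → unitInterval} {c : unitInterval}

lemma isCompact_omega (f : unitInterval → unitInterval) (y : unitInterval) :
    IsCompact (omega f y) := (isClosed_omega f y).isCompact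

lemma exists_return (hcont : Continuous f) (hc : c ∈ omega f c) (hmin : IsMinimalHomeo f c)
    {U : Set unitInterval} (hU : U ∈ 𝓝 c) :
    ∃ d ∈ omega f c, d ∈ U ∧ ∃ j : ℕ, 1 ≤ j ∧ f^[j] d = c := by
  have hcover : omega f c ⊆ ⋃ n : ℕ, (f^[n]) ⁻¹' (interior U) := by
    intro y hy
    have h1 := hmin.2 y hy hc
    rw [mem_closure_iff_nhds] at h1
    obtain ⟨z, hz1, n, rfl⟩ := h1 (interior U) (interior_mem_nhds.2 hU)
    exact Set.mem_iUnion.2 ⟨n, hz1⟩
  obtain ⟨t, ht⟩ := (isCompact_omega f c).elim_finite_subcover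
    (fun n : ℕ => (f^[n]) ⁻¹' (interior U))
    (fun n => isOpen_interior.preimage (hcont.iterate n)) hcover
  have hsurj : Set.SurjOn (f^[t.sup id + 1]) (omega f c) (omega f c) :=
    (hmin.1.iterate (t.sup id + 1)).surjOn
  obtain ⟨y, hy, hyc⟩ := hsurj hc
  have h2 := ht hy
  simp only [Set.mem_iUnion] at h2
  obtain ⟨n, hn, hnU⟩ := h2
  have hn' : n ≤ t.sup id := Finset.le_sup (f := id) hn
  refine ⟨f^[n] y, iterate_mem_omega hcont c hy n, interior_subset hnU, t.sup id + 1 - n,
    by omega, ?_⟩
  rw [← Function.iterate_add_apply, Nat.sub_add_cancel (by omega)]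
  exact hyc

/-- same side of `c` as a fixed point, for finitely many iterates, is an open condition -/
lemma eventually_same_side (hcont : Continuous f) (d : unitInterval) (T : Finset ℕ)
    (hT : ∀ t ∈ T, f^[t] d ≠ c) :
    ∀ᶠ y in 𝓝 d, ∀ t ∈ T, (c < f^[t] y ↔ c < f^[t] d) := by
  rw [Finset.eventually_all]
  intro t ht
  have hc : ContinuousAt (f^[t]) d := (hcont.iterate t).continuousAt
  rcases lt_or_gt_of_ne (hT t ht) with h | h
  · filter_upwards [hc.eventually_lt_const h] with y hy
    exact ⟨fun h' => absurd h' hy.not_gt, fun h' => absurd h' h.not_gt⟩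
  · filter_upwards [hc.eventually_const_lt h] with y hy
    exact ⟨fun _ => h, fun _ => hy⟩

lemma kneading_eq_of_iff {n m : ℕ} (h : c < f^[n] c ↔ c < f^[m] c) :
    kneading f c n = kneading f c m := by
  unfold kneading
  split_ifs with h1 h2 h2
  · rfl
  · exact absurd (h.1 h1) h2
  · exact absurd (h.2 h2) h1
  · rfl

/-- One-sidedness. -/
theorem one_sided (hf : IsUnimodal f c) (hrec : IsInfinitelyRecurrent f c)
    (hlb : IsLongbranched f c) (hmin : IsMinimalHomeo f c) :
    ∃ W ∈ 𝓝 c, ∃ v : ℕ, ∀ l : ℕ, 1 ≤ l → f^[l] c ∈ W → kneading f c l = v := by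
  obtain ⟨hc, hper⟩ := hrec
  obtain ⟨S, Q, hS, hQ, B, hB⟩ := hlb
  have hcont := hf.cont
  have hS' : CutTimes (kneading f c) S := ⟨hS.zero, hS.succ⟩
  have hν := kneading_zero_or_one f c
  have h1 := kneading_one hf
  have hmax := shiftMax_kneading hf hper
  -- neighbourhood U of c where the first S B symbols agree
  have hU := eventually_same_side (c := c) hcont c (Finset.Icc 1 (S B))
    (fun t ht => hper t (Finset.mem_Icc.1 ht).1)
  have hUeven : ∀ l : ℕ, 1 ≤ l → f^[l] c ∈ {y | ∀ t ∈ Finset.Icc 1 (S B),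
      (c < f^[t] y ↔ c < f^[t] c)} → Even (P (kneading f c) l) := by
    intro l hl hlU
    refine even_near hν h1 hmax hS' hQ (S B) ?_ l hl ?_
    · intro k hk
      exact hS'.strictMono.monotone (hB k hk)
    · intro i hi1 hi2
      have := hlU i (Finset.mem_Icc.2 ⟨hi1, hi2⟩)
      rw [← Function.iterate_add_apply, add_comm] at this
      exact kneading_eq_of_iff this
  obtain ⟨d, hdX, hdU, j, hj, hdj⟩ := exists_return hcont hc hmin hU.eventually_nhds
  -- neighbourhood V of d
  have hdT : ∀ t ∈ Finset.range j, f^[t] d ≠ c := by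
    intro t ht heq
    rw [Finset.mem_range] at ht
    apply hper (j - t) (by omega)
    have h2 : f^[j - t] (f^[t] d) = c := by
      rw [← Function.iterate_add_apply, Nat.sub_add_cancel ht.le]
      exact hdj
    rw [heq] at h2
    exact h2
  have hV := (eventually_same_side (c := c) hcont d (Finset.range j) hdT).and hdU
  obtain ⟨V, hVsub, hVopen, hdV⟩ := eventually_nhds_iff.1 hV
  -- the image of the complement of V
  have hinj : Set.InjOn (f^[j]) (omega f c) := (hmin.1.iterate j).injOn
  have hK : IsCompact (f^[j] '' (omega f c \ V)) :=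
    ((isCompact_omega f c).diff hVopen).image (hcont.iterate j)
  have hcK : c ∉ f^[j] '' (omega f c \ V) := by
    rintro ⟨y, ⟨hy1, hy2⟩, hy3⟩
    have : y = d := hinj hy1 hdX (hy3.trans hdj.symm)
    exact hy2 (this ▸ hdV)
  have hW1 : (f^[j] '' (omega f c \ V))ᶜ ∈ 𝓝 c := hK.isClosed.isOpen_compl.mem_nhds hcK
  have hfin : ((fun i : ℕ => f^[i] c) '' (Set.Icc 1 j)).Finite := (Set.finite_Icc 1 j).image _
  have hW2 : ((fun i : ℕ => f^[i] c) '' (Set.Icc 1 j))ᶜ ∈ 𝓝 c := by
    refine hfin.isClosed.isOpen_compl.mem_nhds ?_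
    rintro ⟨i, hi, hic⟩
    exact hper i hi.1 hic
  refine ⟨_, inter_mem (inter_mem hW1 hW2) hU, 
    (∑ t ∈ Finset.range (j - 1), (if c < f^[t + 1] d then 1 else 0)) % 2, ?_⟩
  rintro l hl ⟨⟨hl1, hl2⟩, hl3⟩
  have hlj : j < l := by
    by_contra hcon
    exact hl2 ⟨l, ⟨hl, by omega⟩, rfl⟩
  obtain ⟨m, rfl⟩ : ∃ m, l = m + j := ⟨l - j, by omega⟩
  have hm1 : 1 ≤ m := by omega
  have hmV : f^[m] c ∈ V := by
    by_contra hcon
    apply hl1
    refine ⟨f^[m] c, ⟨iterate_mem_omega hcont c hc m, hcon⟩, ?_⟩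
    rw [← Function.iterate_add_apply, add_comm]
  have hE1 : Even (P (kneading f c) (m + j)) := hUeven _ (by omega) hl3
  have hE2 : Even (P (kneading f c) m) := hUeven m hm1 (hVsub _ hmV).2
  have hside := (hVsub _ hmV).1
  -- partial sums
  have hsum : ∀ n, n + 1 ≤ j → P (kneading f c) (m + n) = P (kneading f c) m +
      ∑ t ∈ Finset.range n, (if c < f^[t + 1] d then 1 else 0) := by
    intro n
    induction n with
    | zero => intro _; simp
    | succ n ih =>
      intro hn
      rw [← add_assoc, P_succ, ih (by omega), Finset.sum_range_succ, add_assoc]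
      congr 2
      have h2 := hside (n + 1) (Finset.mem_range.2 (by omega))
      rw [← Function.iterate_add_apply] at h2
      unfold kneading
      rw [show m + n + 1 = n + 1 + m by omega]
      split_ifs with h3 h4 h4
      · rfl
      · exact absurd (h2.1 h3) h4
      · exact absurd (h2.2 h4) h3
      · rfl
  have hlast := hsum (j - 1) (by omega)
  have hPj : P (kneading f c) (m + j) = P (kneading f c) (m + (j - 1)) + kneading f c (m + j) := by
    have : m + j = (m + (j - 1)) + 1 := by omega
    rw [this, P_succ]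
  rw [hPj, hlast] at hE1
  have h01 := hν (m + j)
  rw [Nat.even_iff] at hE1 hE2
  omega

end Pool.Agent.W_MP_23b248_an
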