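import Mathlib
import Pool.Agent.W_MP_23b248_an.Dyn

set_option autoImplicit false

/-!
Two points of an infinite minimal `ω(c)` with the same itinerary span a wandering interval.
-/

namespace Pool.Agent.W_MP_23b248_an

open Filter Topology

variable {f : unitInterval → unitInterval} {c : unitInterval}

/-- the number of symbols `true` among the first `n` symbols of the itinerary of `x` -/
def cnt (f : unitInterval → unitInterval) (s : unitInterval → Bool) (x : unitInterval) (n : ℕ) :
    ℕ := ∑ i ∈ Finset.range n, (if s (f^[i] x) = true then 1 else 0)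

lemma cnt_succ (f : unitInterval → unitInterval) (s : unitInterval → Bool) (x : unitInterval)
    (n : ℕ) : cnt f s x (n + 1) = cnt f s x n + (if s (f^[n] x) = true then 1 else 0) := by
  unfold cnt
  rw [Finset.sum_range_succ]

lemma cnt_add (f : unitInterval → unitInterval) (s : unitInterval → Bool) (x : unitInterval)
    (m n : ℕ) : cnt f s x (m + n) = cnt f s x m + cnt f s (f^[m] x) n := by
  induction n with
  | zero => simp [cnt]
  | succ n ih =>
    rw [← add_assoc, cnt_succ, cnt_succ, ih, ← Function.iterate_add_apply, add_comm n m, add_assoc]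

lemma cnt_congr {f : unitInterval → unitInterval} {s : unitInterval → Bool} {x y : unitInterval}
    (h : ∀ n, s (f^[n] x) = s (f^[n] y)) (n : ℕ) : cnt f s x n = cnt f s y n := by
  unfold cnt
  refine Finset.sum_congr rfl fun i _ => ?_
  rw [h i]

/-- a side function compatible with the turning point -/
structure IsSide (c : unitInterval) (s : unitInterval → Bool) : Prop where
  le_of_false : ∀ z, s z = false → z ≤ c
  ge_of_true : ∀ z, s z = true → c ≤ z

lemma pair_order (hf : IsUnimodal f c) {s : unitInterval → Bool} (hs : IsSide c s)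
    {u v : unitInterval} (huv : u < v) (h : ∀ n, s (f^[n] u) = s (f^[n] v)) (n : ℕ) :
    (Even (cnt f s u n) → f^[n] u < f^[n] v) ∧ (Odd (cnt f s u n) → f^[n] v < f^[n] u) := by
  induction n with
  | zero =>
    refine ⟨fun _ => by simpa using huv, fun h => ?_⟩
    simp [cnt] at h
  | succ n ih =>
    rw [Function.iterate_succ_apply', Function.iterate_succ_apply', cnt_succ]
    rcases hsu : s (f^[n] u) with _ | _
    · have h1 := hs.le_of_false _ hsu
      have h2 := hs.le_of_false _ ((h n).symm.trans hsu)
      simp only [Bool.false_eq_true, if_false, add_zero]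
      exact ⟨fun he => hf.lt_left (ih.1 he) h2, fun ho => hf.lt_left (ih.2 ho) h1⟩
    · have h1 := hs.ge_of_true _ hsu
      have h2 := hs.ge_of_true _ ((h n).symm.trans hsu)
      simp only [if_true]
      refine ⟨fun he => hf.lt_right (ih.2 ?_) h2, fun ho => hf.lt_right (ih.1 ?_) h1⟩
      · rw [Nat.even_add_one, Nat.not_even_iff_odd] at he
        exact he
      · rw [Nat.odd_add_one, Nat.not_odd_iff_even] at ho
        exact ho

/-- no point of `ω(c)` has an eventually periodic itinerary -/
lemma not_eventually_periodic (hf : IsUnimodal f c) (hmin : IsMinimalHomeo f c)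
    (hinf : (omega f c).Infinite) {s : unitInterval → Bool} (hs : IsSide c s)
    {x : unitInterval} (hx : x ∈ omega f c) {q : ℕ} (hq : 1 ≤ q)
    (hper : ∀ i : ℕ, s (f^[i] x) = s (f^[i + q] x)) : False := by
  set g := f^[q + q] with hg
  have hgx : ∀ k : ℕ, g^[k] x = f^[(q + q) * k] x := fun k => by
    rw [hg, ← Function.iterate_mul]
  have hperk : ∀ k i : ℕ, s (f^[i] x) = s (f^[i + q * k] x) := by
    intro k
    induction k with
    | zero => intro i; simp
    | succ k ih =>
      intro i
      rw [ih i, hper (i + q * k), mul_add, mul_one, add_assoc]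
  have hsame : ∀ k n : ℕ, s (f^[n] (g^[k] x)) = s (f^[n] (g^[k + 1] x)) := by
    intro k n
    rw [hgx, hgx, ← Function.iterate_add_apply, ← Function.iterate_add_apply,
      show n + (q + q) * k = n + q * (2 * k) by ring, ← hperk,
      show n + (q + q) * (k + 1) = n + q * (2 * (k + 1)) by ring, ← hperk]
  have heven : ∀ k : ℕ, Even (cnt f s (g^[k] x) (q + q)) := by
    intro k
    rw [cnt_add, cnt_congr (x := f^[q] (g^[k] x)) (y := g^[k] x)]
    · exact ⟨_, rfl⟩
    · intro n
      rw [hgx, ← Function.iterate_add_apply, ← Function.iterate_add_apply,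
        ← Function.iterate_add_apply,
        show n + q + (q + q) * k = n + q * (2 * k + 1) by ring, ← hperk,
        show n + (q + q) * k = n + q * (2 * k) by ring, ← hperk]
  have hmono : Monotone (fun k : ℕ => g^[k] x) ∨ Antitone (fun k : ℕ => g^[k] x) := by
    have hstep : ∀ k : ℕ, (g^[k] x < g^[k + 1] x → g^[k + 1] x < g^[k + 2] x) ∧
        (g^[k + 1] x < g^[k] x → g^[k + 2] x < g^[k + 1] x) := by
      intro k
      have e1 : g^[k + 1] x = f^[q + q] (g^[k] x) := Function.iterate_succ_apply' _ _ _
      have e2 : g^[k + 2] x = f^[q + q] (g^[k + 1] x) := Function.iterate_succ_apply' _ _ _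
      refine ⟨fun hlt => ?_, fun hlt => ?_⟩
      · have := (pair_order hf hs hlt (hsame k) (q + q)).1 (heven k)
        rw [← e1, ← e2] at this
        exact this
      · have := (pair_order hf hs hlt (fun n => (hsame k n).symm) (q + q)).1 (heven (k + 1))
        rw [← e1, ← e2] at this
        exact this
    rcases lt_trichotomy (g^[0] x) (g^[1] x) with h | h | h
    · left
      refine (strictMono_nat_of_lt_succ fun k => ?_).monotone
      induction k with
      | zero => exact h
      | succ k ih => exact (hstep k).1 ih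
    · left
      refine monotone_nat_of_le_succ fun k => le_of_eq ?_
      induction k with
      | zero => exact h
      | succ k ih =>
        rw [Function.iterate_succ_apply', ih]
        exact (Function.iterate_succ_apply' g (k + 1) x).symm
    · right
      refine (strictAnti_nat_of_succ_lt fun k => ?_).antitone
      induction k with
      | zero => exact h
      | succ k ih => exact (hstep k).2 ih
  have hlim : ∃ z, Tendsto (fun k : ℕ => g^[k] x) atTop (𝓝 z) := by
    rcases hmono with h | h
    · exact ⟨_, tendsto_atTop_iSup h⟩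
    · exact ⟨_, tendsto_atTop_iInf h⟩
  obtain ⟨z, hz⟩ := hlim
  have hgcont : Continuous g := hf.cont.iterate _
  have hfix : g z = z := by
    have h1 : Tendsto (fun k : ℕ => g (g^[k] x)) atTop (𝓝 (g z)) :=
      (hgcont.tendsto z).comp hz
    have h2 : Tendsto (fun k : ℕ => g (g^[k] x)) atTop (𝓝 z) := by
      have := hz.comp (tendsto_add_atTop_nat 1)
      refine this.congr fun k => ?_
      simp only [Function.comp_apply]
      exact Function.iterate_succ_apply' g k x
    exact tendsto_nhds_unique h1 h2
  have hzX : z ∈ omega f c := by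
    refine (isClosed_omega f c).mem_of_tendsto hz (Eventually.of_forall fun k => ?_)
    rw [hgx]
    exact iterate_mem_omega hf.cont c hx _
  have hfin : (Set.range fun n : ℕ => f^[n] z).Finite := by
    refine ((Set.finite_Iio (q + q)).image (fun n : ℕ => f^[n] z)).subset ?_
    rintro _ ⟨n, rfl⟩
    refine ⟨n % (q + q), Nat.mod_lt _ (by omega), ?_⟩
    have : Function.IsPeriodicPt f (q + q) z := hfix
    exact this.iterate_mod_apply n
  have hsub := hmin.2 z hzX
  rw [hfin.isClosed.closure_eq] at hsub
  exact hinf (hfin.subset hsub)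

lemma Ioo_map (hf : IsUnimodal f c) {s : unitInterval → Bool} (hs : IsSide c s)
    {a b z : unitInterval} (hab : s a = s b) (hz : z ∈ Set.Ioo (min a b) (max a b)) :
    f z ∈ Set.Ioo (min (f a) (f b)) (max (f a) (f b)) ∧ (s a = false → z < c) ∧
      (s a = true → c < z) := by
  obtain ⟨h1, h2⟩ := hz
  rcases hsa : s a with _ | _
  · have ha := hs.le_of_false _ hsa
    have hb := hs.le_of_false _ (hab.symm.trans hsa)
    have hmax : max a b ≤ c := max_le ha hb
    have h3 := hf.lt_left h1 (h2.le.trans hmax)
    have h4 := hf.lt_left h2 hmax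
    refine ⟨⟨lt_of_le_of_lt ?_ h3, lt_of_lt_of_le h4 ?_⟩, fun _ => lt_of_lt_of_le h2 hmax, by simp⟩
    · rcases min_choice a b with h | h <;> rw [h] <;> simp
    · rcases max_choice a b with h | h <;> rw [h] <;> simp
  · have ha := hs.ge_of_true _ hsa
    have hb := hs.ge_of_true _ (hab.symm.trans hsa)
    have hmin : c ≤ min a b := le_min ha hb
    have h3 := hf.lt_right h1 hmin
    have h4 := hf.lt_right h2 (hmin.trans h1.le)
    refine ⟨⟨lt_of_le_of_lt ?_ h4, lt_of_lt_of_le h3 ?_⟩, by simp, fun _ => lt_of_le_of_lt hmin h1⟩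
    · rcases max_choice a b with h | h <;> rw [h] <;> simp
    · rcases min_choice a b with h | h <;> rw [h] <;> simp

/-- the open interval spanned by the `n`-th images of `y` and `y'` -/
def KI (f : unitInterval → unitInterval) (y y' : unitInterval) (n : ℕ) : Set unitInterval :=
  Set.Ioo (min (f^[n] y) (f^[n] y')) (max (f^[n] y) (f^[n] y'))

lemma KI_iterate (hf : IsUnimodal f c) {s : unitInterval → Bool} (hs : IsSide c s)
    {y y' : unitInterval} (h : ∀ n, s (f^[n] y) = s (f^[n] y')) {n : ℕ} {z : unitInterval}
    (hz : z ∈ KI f y y' n) (i : ℕ) : f^[i] z ∈ KI f y y' (n + i) := by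
  induction i with
  | zero => simpa using hz
  | succ i ih =>
    have := (Ioo_map hf hs (h (n + i)) ih).1
    rw [Function.iterate_succ_apply']
    unfold KI
    rw [← add_assoc, Function.iterate_succ_apply', Function.iterate_succ_apply']
    exact this

lemma KI_disjoint (hf : IsUnimodal f c) (hmin : IsMinimalHomeo f c)
    (hinf : (omega f c).Infinite) {s : unitInterval → Bool} (hs : IsSide c s)
    {y y' : unitInterval} (hy : y ∈ omega f c) (h : ∀ n, s (f^[n] y) = s (f^[n] y'))
    (m p : ℕ) (hp : 1 ≤ p) : Disjoint (KI f y y' m) (KI f y y' (m + p)) := by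
  rw [Set.disjoint_left]
  intro z hz1 hz2
  refine not_eventually_periodic hf hmin hinf hs (iterate_mem_omega hf.cont c hy m) hp ?_
  intro i
  have h1 := Ioo_map hf hs (h (m + i)) (KI_iterate hf hs h hz1 i)
  have h2 := Ioo_map hf hs (h (m + p + i)) (KI_iterate hf hs h hz2 i)
  rw [← Function.iterate_add_apply, ← Function.iterate_add_apply, add_comm i m,
    show i + p + m = m + p + i by omega]
  rcases hs1 : s (f^[m + i] y) with _ | _ <;> rcases hs2 : s (f^[m + p + i] y) with _ | _
  · rfl
  · exact absurd (h1.2.1 hs1) (h2.2.2 hs2).not_gt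
  · exact absurd (h2.2.1 hs2) (h1.2.2 hs1).not_gt
  · rfl

lemma KI_pairwise (hf : IsUnimodal f c) (hmin : IsMinimalHomeo f c)
    (hinf : (omega f c).Infinite) {s : unitInterval → Bool} (hs : IsSide c s)
    {y y' : unitInterval} (hy : y ∈ omega f c) (h : ∀ n, s (f^[n] y) = s (f^[n] y'))
    (m n : ℕ) (hmn : m ≠ n) : Disjoint (KI f y y' m) (KI f y y' n) := by
  rcases lt_or_gt_of_ne hmn with hlt | hlt
  · obtain ⟨p, rfl⟩ : ∃ p, n = m + p := ⟨n - m, by omega⟩
    exact KI_disjoint hf hmin hinf hs hy h m p (by omega)
  · obtain ⟨p, rfl⟩ : ∃ p, m = n + p := ⟨m - n, by omega⟩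
    exact (KI_disjoint hf hmin hinf hs hy h n p (by omega)).symm

open MeasureTheory in
lemma dist_tendsto_zero {y y' : unitInterval}
    (hdisj : ∀ m n : ℕ, m ≠ n → Disjoint (KI f y y' m) (KI f y y' n)) :
    Tendsto (fun n : ℕ => dist (f^[n] y) (f^[n] y')) atTop (𝓝 0) := by
  set A : ℕ → Set ℝ := fun n =>
    Set.Ioo (min (f^[n] y : ℝ) (f^[n] y' : ℝ)) (max (f^[n] y : ℝ) (f^[n] y' : ℝ)) with hA
  have hAsub : ∀ n, A n ⊆ Set.Icc 0 1 := by
    intro n x hx
    refine ⟨le_trans (le_min (f^[n] y).2.1 (f^[n] y').2.1) hx.1.le,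
      le_trans hx.2.le (max_le (f^[n] y).2.2 (f^[n] y').2.2)⟩
  have hAdisj : Pairwise (Function.onFun Disjoint A) := by
    intro m n hmn
    rw [Function.onFun, Set.disjoint_left]
    intro x hx1 hx2
    have hxI := hAsub m hx1
    have e1 : (⟨x, hxI⟩ : unitInterval) ∈ KI f y y' m := by
      refine ⟨?_, ?_⟩
      · rcases min_choice (f^[m] y) (f^[m] y') with h | h <;> rw [h] <;> rw [← Subtype.coe_lt_coe]
        · exact lt_of_le_of_lt (by
            rw [min_eq_left_iff] at h
            exact le_of_eq (min_eq_left (Subtype.coe_le_coe.2 h)).symm) hx1.1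
        · exact lt_of_le_of_lt (by
            rw [min_eq_right_iff] at h
            exact le_of_eq (min_eq_right (Subtype.coe_le_coe.2 h)).symm) hx1.1
      · rcases max_choice (f^[m] y) (f^[m] y') with h | h <;> rw [h] <;> rw [← Subtype.coe_lt_coe]
        · exact lt_of_lt_of_le hx1.2 (by
            rw [max_eq_left_iff] at h
            exact le_of_eq (max_eq_left (Subtype.coe_le_coe.2 h)))
        · exact lt_of_lt_of_le hx1.2 (by
            rw [max_eq_right_iff] at h
            exact le_of_eq (max_eq_right (Subtype.coe_le_coe.2 h)))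
    have e2 : (⟨x, hxI⟩ : unitInterval) ∈ KI f y y' n := by
      refine ⟨?_, ?_⟩
      · rcases min_choice (f^[n] y) (f^[n] y') with h | h <;> rw [h] <;> rw [← Subtype.coe_lt_coe]
        · exact lt_of_le_of_lt (by
            rw [min_eq_left_iff] at h
            exact le_of_eq (min_eq_left (Subtype.coe_le_coe.2 h)).symm) hx2.1
        · exact lt_of_le_of_lt (by
            rw [min_eq_right_iff] at h
            exact le_of_eq (min_eq_right (Subtype.coe_le_coe.2 h)).symm) hx2.1
      · rcases max_choice (f^[n] y) (f^[n] y') with h | h <;> rw [h] <;> rw [← Subtype.coe_lt_coe]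
        · exact lt_of_lt_of_le hx2.2 (by
            rw [max_eq_left_iff] at h
            exact le_of_eq (max_eq_left (Subtype.coe_le_coe.2 h)))
        · exact lt_of_lt_of_le hx2.2 (by
            rw [max_eq_right_iff] at h
            exact le_of_eq (max_eq_right (Subtype.coe_le_coe.2 h)))
    exact Set.disjoint_left.1 (hdisj m n hmn) e1 e2
  have hsum : ∑' n, volume (A n) ≠ ⊤ := by
    rw [← measure_iUnion hAdisj (fun n => measurableSet_Ioo)]
    refine ne_top_of_le_ne_top (b := volume (Set.Icc (0 : ℝ) 1)) (by simp) ?_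
    exact measure_mono (Set.iUnion_subset hAsub)
  have htend := ENNReal.tendsto_atTop_zero_of_tsum_ne_top hsum
  have hvol : ∀ n, volume (A n) = ENNReal.ofReal (dist (f^[n] y) (f^[n] y')) := by
    intro n
    rw [hA]
    simp only [Real.volume_Ioo]
    congr 1
    rw [Subtype.dist_eq, Real.dist_eq, max_sub_min_eq_abs, abs_sub_comm]
  simp_rw [hvol] at htend
  have := (ENNReal.tendsto_toReal ENNReal.zero_ne_top).comp htend
  refine this.congr fun n => ?_
  simp only [Function.comp_apply]
  exact ENNReal.toReal_ofReal dist_nonneg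

lemma omega_subset_of_dist {x y : unitInterval}
    (h : Tendsto (fun n : ℕ => dist (f^[n] x) (f^[n] y)) atTop (𝓝 0)) :
    omega f y ⊆ omega f x := by
  intro z hz
  rw [mem_omega_iff] at hz ⊢
  intro U hU N
  obtain ⟨ε, hε, hball⟩ := Metric.mem_nhds_iff.1 hU
  have h1 := (Metric.tendsto_atTop.1 h) (ε / 2) (half_pos hε)
  obtain ⟨M, hM⟩ := h1
  obtain ⟨n, hn1, hn2⟩ := hz (Metric.ball z (ε / 2)) (Metric.ball_mem_nhds z (half_pos hε))
    (max N M)
  refine ⟨n, le_trans (le_max_left _ _) hn1, hball ?_⟩
  have h2 := hM n (le_trans (le_max_right _ _) hn1)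
  rw [Real.dist_0_eq_abs, abs_of_nonneg dist_nonneg] at h2
  rw [Metric.mem_ball] at hn2 ⊢
  calc dist (f^[n] x) z ≤ dist (f^[n] x) (f^[n] y) + dist (f^[n] y) z := dist_triangle _ _ _
    _ < ε / 2 + ε / 2 := add_lt_add h2 hn2
    _ = ε := by ring

lemma omega_minimal_subset (hcont : Continuous f) (hmin : IsMinimalHomeo f c)
    {y : unitInterval} (hy : y ∈ omega f c) : omega f c ⊆ omega f y := by
  obtain ⟨w, hw⟩ := nonempty_omega f y
  have hwX : w ∈ omega f c := by
    have : omega f y ⊆ omega f c := by
      intro z hz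
      refine (isClosed_omega f c).mem_of_mapClusterPt hz ?_
      exact Eventually.of_forall fun n => iterate_mem_omega hcont c hy n
    exact this hw
  refine (hmin.2 w hwX).trans ?_
  refine closure_minimal ?_ (isClosed_omega f y)
  rintro _ ⟨n, rfl⟩
  exact iterate_mem_omega hcont y hw n

end Pool.Agent.W_MP_23b248_an
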