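import Mathlib
import Pool.Agent.W_MP_23b248_an.OneSide
import Pool.Agent.W_MP_23b248_an.Expansive
import Pool.Agent.W_MP_23b248_an.Wander

set_option autoImplicit false

/-!
A longbranched unimodal map with infinitely recurrent turning point whose restriction to the
critical omega-limit set is a minimal homeomorphism has a wandering interval.
-/

namespace Pool.Agent.W_MP_23b248_an

open Filter Topology

variable {f : unitInterval → unitInterval} {c : unitInterval}

lemma infinite_omega (hcont : Continuous f) (hrec : IsInfinitelyRecurrent f c)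
    (hmin : IsMinimalHomeo f c) : (omega f c).Infinite := by
  refine Set.infinite_of_injective_forall_mem (f := fun n : ℕ => f^[n] c) ?_
    (fun n => iterate_mem_omega hcont c hrec.1 n)
  have key : ∀ m p : ℕ, 1 ≤ p → f^[m] c ≠ f^[m + p] c := by
    intro m p hp heq
    rw [Function.iterate_add_apply] at heq
    have := (hmin.1.iterate m).injOn hrec.1 (iterate_mem_omega hcont c hrec.1 p) heq
    exact hrec.2 p hp this.symm
  intro m n hmn
  simp only at hmn
  by_contra hne
  rcases lt_or_gt_of_ne hne with hlt | hlt
  · obtain ⟨p, rfl⟩ : ∃ p, n = m + p := ⟨n - m, by omega⟩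
    exact key m p (by omega) hmn
  · obtain ⟨p, rfl⟩ : ∃ p, m = n + p := ⟨m - n, by omega⟩
    exact key n p (by omega) hmn.symm

theorem exists_wandering (hf : IsUnimodal f c) (hrec : IsInfinitelyRecurrent f c)
    (hlb : IsLongbranched f c) (hmin : IsMinimalHomeo f c) :
    ∃ a ∈ omega f c, ∃ b ∈ omega f c, IsWanderingInterval f a b := by
  have hinf := infinite_omega hf.cont hrec hmin
  obtain ⟨W, hW, v, hv⟩ := one_sided hf hrec hlb hmin
  classical
  set s : unitInterval → Bool := fun z => if v = 1 then decide (c ≤ z) else decide (c < z) with hsdef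
  have hside : IsSide c s := by
    refine ⟨fun z hz => ?_, fun z hz => ?_⟩
    · simp only [hsdef] at hz
      split_ifs at hz with h
      · simp only [decide_eq_false_iff_not, not_le] at hz
        exact hz.le
      · simp only [decide_eq_false_iff_not, not_lt] at hz
        exact hz
    · simp only [hsdef] at hz
      split_ifs at hz with h
      · simpa using hz
      · simp only [decide_eq_true_eq] at hz
        exact hz.le
  have hX : ∀ z ∈ omega f c, z ∈ interior W → (v = 1 → c ≤ z) ∧ (v ≠ 1 → z ≤ c) := by
    intro z hz hzW
    refine ⟨fun hv1 => ?_, fun hv1 => ?_⟩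
    · by_contra hlt
      rw [not_le] at hlt
      obtain ⟨n, hn, hn1, hn2⟩ := (mem_omega_iff f c z).1 hz (interior W ∩ Set.Iio c)
        (inter_mem (isOpen_interior.mem_nhds hzW) (Iio_mem_nhds hlt)) 1
      have := hv n hn (interior_subset hn1)
      rw [hv1, kneading_eq_one_iff] at this
      exact absurd this (not_lt.2 (le_of_lt hn2))
    · by_contra hlt
      rw [not_le] at hlt
      obtain ⟨n, hn, hn1, hn2⟩ := (mem_omega_iff f c z).1 hz (interior W ∩ Set.Ioi c)
        (inter_mem (isOpen_interior.mem_nhds hzW) (Ioi_mem_nhds hlt)) 1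
      have := hv n hn (interior_subset hn1)
      rw [(kneading_eq_one_iff f c n).2 hn2] at this
      exact hv1 this.symm
  have hloc : ∀ y ∈ omega f c, ∀ᶠ z in 𝓝[omega f c] y, s z = s y := by
    intro y hy
    rcases lt_trichotomy y c with h | h | h
    · refine (eventually_nhdsWithin_of_eventually_nhds ?_)
      filter_upwards [Iio_mem_nhds h] with z hz
      have hz' : z < c := hz
      simp only [hsdef]
      split_ifs with hv1
      · simp [not_le.2 hz', not_le.2 h]
      · simp [not_lt.2 hz'.le, not_lt.2 h.le]
    · subst h
      filter_upwards [self_mem_nhdsWithin,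
        mem_nhdsWithin_of_mem_nhds (interior_mem_nhds.2 hW)] with z hz1 hz2
      have := hX z hz1 hz2
      simp only [hsdef]
      split_ifs with hv1
      · simp [this.1 hv1]
      · simp [this.2 hv1]
    · refine (eventually_nhdsWithin_of_eventually_nhds ?_)
      filter_upwards [Ioi_mem_nhds h] with z hz
      have hz' : c < z := hz
      simp only [hsdef]
      split_ifs with hv1
      · simp [hz'.le, h.le]
      · simp [hz', h]
  obtain ⟨y, hy, y', hy', hne, hsame⟩ := exists_same_itinerary hf.cont (isCompact_omega f c)
    hinf hmin.1.mapsTo hmin.1.injOn s hloc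
  -- order the two points
  have main : ∀ a ∈ omega f c, ∀ b ∈ omega f c, a < b → (∀ n : ℕ, s (f^[n] a) = s (f^[n] b)) →
      IsWanderingInterval f a b := by
    intro a ha b hb hab hs'
    have hdisj := KI_pairwise hf hmin hinf hside ha hs'
    have himg : ∀ n : ℕ, f^[n] '' Set.Ioo a b ⊆ KI f a b n := by
      rintro n _ ⟨z, hz, rfl⟩
      have hz0 : z ∈ KI f a b 0 := by
        unfold KI
        simp only [Function.iterate_zero, id_eq]
        rw [min_eq_left hab.le, max_eq_right hab.le]
        exact hz
      have := KI_iterate hf hside hs' hz0 n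
      rwa [zero_add] at this
    refine ⟨hab, fun m n hmn => (hdisj m n hmn).mono (himg m) (himg n), ?_⟩
    intro x hx
    have hdist := dist_tendsto_zero hdisj
    have hxa : Tendsto (fun n : ℕ => dist (f^[n] x) (f^[n] a)) atTop (𝓝 0) := by
      refine squeeze_zero (fun n => dist_nonneg) (fun n => ?_) hdist
      have hmem := himg n ⟨x, hx, rfl⟩
      rw [Subtype.dist_eq, Subtype.dist_eq]
      refine Real.dist_le_of_mem_uIcc ?_ ?_ |>.trans (le_of_eq (dist_comm _ _)) 
      · rw [Set.mem_uIcc]
        rcases le_total (f^[n] a) (f^[n] b) with h | h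
        · right
          unfold KI at hmem
          rw [min_eq_left h, max_eq_right h] at hmem
          exact ⟨hmem.1.le, hmem.2.le⟩
        · left
          unfold KI at hmem
          rw [min_eq_right h, max_eq_left h] at hmem
          exact ⟨hmem.1.le, hmem.2.le⟩
      · exact Set.right_mem_uIcc
    exact hinf.mono ((omega_minimal_subset hf.cont hmin ha).trans (omega_subset_of_dist hxa))
  rcases lt_or_gt_of_ne hne with hlt | hlt
  · exact ⟨y, hy, y', hy', main y hy y' hy' hlt hsame⟩
  · exact ⟨y', hy', y, hy, main y' hy' y hy hlt fun n => (hsame n).symm⟩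

end Pool.Agent.W_MP_23b248_an
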